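import Mathlib

/-!
# Torsion of tensor squares over `ℤ[X]`, preparations
-/

set_option autoImplicit false

namespace Pool.Agent.Helper686.SK

open TensorProduct

section general

variable {R : Type} [CommRing R] (p : R)

/-- Every element of `(R ⧸ p) ⊗ X` is of the form `1 ⊗ x`. -/
theorem exists_one_tmul (X : Type) [AddCommGroup X] [Module R X]
    (z : (R ⧸ Ideal.span {p}) ⊗[R] X) : ∃ x : X, z = 1 ⊗ₜ x := by
  obtain ⟨x, hx⟩ := Submodule.Quotient.mk_surjective _
    (TensorProduct.quotTensorEquivQuotSMul X (Ideal.span {p}) z)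
  refine ⟨x, ?_⟩
  apply (TensorProduct.quotTensorEquivQuotSMul X (Ideal.span {p})).injective
  rw [← hx, TensorProduct.quotTensorEquivQuotSMul_mk_one_tmul]

/-- `1 ⊗ x = 0` in `(R ⧸ p) ⊗ X` if and only if `x` is a multiple of `p`. -/
theorem one_tmul_eq_zero_iff (X : Type) [AddCommGroup X] [Module R X] (x : X) :
    (1 : R ⧸ Ideal.span {p}) ⊗ₜ[R] x = 0 ↔ ∃ y : X, x = p • y := by
  rw [← (TensorProduct.quotTensorEquivQuotSMul X (Ideal.span {p})).map_eq_zero_iff,
    TensorProduct.quotTensorEquivQuotSMul_mk_one_tmul, Submodule.Quotient.mk_eq_zero,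
    Submodule.ideal_span_singleton_smul, Submodule.mem_smul_pointwise_iff_exists]
  simp [eq_comm]

/-- If `p` is regular on `X` then `K ⧸ p → P ⧸ p` is injective for a presentation
`0 → K → P → X → 0`. -/
theorem baseChange_injective {X P : Type} [AddCommGroup X] [Module R X] [AddCommGroup P]
    [Module R P] (π : P →ₗ[R] X) (hX : ∀ x : X, p • x = 0 → x = 0) :
    Function.Injective
      ((LinearMap.ker π).subtype.lTensor (R ⧸ Ideal.span {p})) := by
  rw [injective_iff_map_eq_zero]
  intro z hz
  obtain ⟨k, rfl⟩ := exists_one_tmul p _ z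
  rw [LinearMap.lTensor_tmul, one_tmul_eq_zero_iff] at hz
  obtain ⟨y, hy⟩ := hz
  have hk : π (k : P) = 0 := k.2
  rw [Submodule.subtype_apply] at hy
  rw [hy, map_smul] at hk
  rw [one_tmul_eq_zero_iff]
  exact ⟨⟨y, hX _ hk⟩, Subtype.ext hy⟩

/-- If `X ⧸ p` is flat over `R ⧸ p` and `p` is regular on `X` then `A ⊗ K → A ⊗ P` is
injective for all `R ⧸ p`-modules `A`. -/
theorem lTensor_ker_injective {X P : Type} [AddCommGroup X] [Module R X] [AddCommGroup P]
    [Module R P] (π : P →ₗ[R] X) (hπ : Function.Surjective π)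
    (hX : ∀ x : X, p • x = 0 → x = 0)
    [Module.Flat (R ⧸ Ideal.span {p}) ((R ⧸ Ideal.span {p}) ⊗[R] X)]
    (A : Type) [AddCommGroup A] [Module R A] [Module (R ⧸ Ideal.span {p}) A]
    [IsScalarTower R (R ⧸ Ideal.span {p}) A] :
    Function.Injective ((LinearMap.ker π).subtype.lTensor A) := by
  let D := R ⧸ Ideal.span {p}
  have hexact : Function.Exact (LinearMap.ker π).subtype π :=
    LinearMap.exact_subtype_ker_map π
  have h1 : Function.Exact (AlgebraTensorModule.lTensor D D (LinearMap.ker π).subtype)
      (AlgebraTensorModule.lTensor D D π) := by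
    have := lTensor_exact D hexact hπ
    exact this
  have h2 : Function.Surjective (AlgebraTensorModule.lTensor D D π) :=
    LinearMap.lTensor_surjective D hπ
  have h3 : Function.Injective (AlgebraTensorModule.lTensor D D (LinearMap.ker π).subtype) :=
    baseChange_injective p π hX
  have h4 := LinearMap.lTensor_injective_of_exact_of_flat _ h2 _ h3 h1 A
  intro x y hxy
  apply (AlgebraTensorModule.cancelBaseChange R D D A (LinearMap.ker π)).symm.injective
  apply h4
  have key : ∀ z : A ⊗[R] (LinearMap.ker π),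
      (AlgebraTensorModule.lTensor D D (LinearMap.ker π).subtype).lTensor A
        ((AlgebraTensorModule.cancelBaseChange R D D A (LinearMap.ker π)).symm z) =
      (AlgebraTensorModule.cancelBaseChange R D D A P).symm
        ((LinearMap.ker π).subtype.lTensor A z) := by
    intro z
    induction z using TensorProduct.induction_on with
    | zero => simp
    | tmul a k => simp
    | add u v hu hv => simp only [map_add, hu, hv]
  rw [key, key, hxy]

theorem tensor_regular_aux {I X P : Type} [AddCommGroup I] [Module R I] [AddCommGroup X]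
    [Module R X] [AddCommGroup P] [Module R P] [Module.Flat R P] (π : P →ₗ[R] X)
    (hπ : Function.Surjective π)
    (hI : ∀ x : I, p • x = 0 → x = 0) (hX : ∀ x : X, p • x = 0 → x = 0)
    [Module.Flat (R ⧸ Ideal.span {p}) ((R ⧸ Ideal.span {p}) ⊗[R] X)] (ξ : I ⊗[R] X)
    (hξ : p • ξ = 0) : ξ = 0 := by
  let D := R ⧸ Ideal.span {p}
  have hexact : Function.Exact (LinearMap.ker π).subtype π :=
    LinearMap.exact_subtype_ker_map π
  obtain ⟨η, rfl⟩ := LinearMap.lTensor_surjective I hπ ξ
  have h1 : π.lTensor I (p • η) = 0 := by rw [map_smul, hξ]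
  have hex2 := lTensor_exact I hexact hπ
  obtain ⟨w, hw⟩ := (hex2 (p • η)).1 h1
  -- pass to `I ⧸ p`
  have hinj := lTensor_ker_injective p π hπ hX (D ⊗[R] I)
  let q : I →ₗ[R] D ⊗[R] I := TensorProduct.mk R D I 1
  have hpD : ∀ (Y : Type) [AddCommGroup Y] [Module R Y] (z : (D ⊗[R] I) ⊗[R] Y), p • z = 0 := by
    intro Y _ _ z
    induction z using TensorProduct.induction_on with
    | zero => simp
    | tmul a y =>
      have : p • a = 0 := by
        obtain ⟨x, rfl⟩ := exists_one_tmul p _ a
        rw [← TensorProduct.tmul_smul, one_tmul_eq_zero_iff]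
        exact ⟨x, rfl⟩
      rw [TensorProduct.smul_tmul', this, TensorProduct.zero_tmul]
    | add u v hu hv => rw [smul_add, hu, hv, add_zero]
  have h2 : q.rTensor (LinearMap.ker π) w = 0 := by
    apply hinj
    rw [map_zero]
    have : (LinearMap.ker π).subtype.lTensor (D ⊗[R] I) (q.rTensor (LinearMap.ker π) w) =
        q.rTensor P ((LinearMap.ker π).subtype.lTensor I w) := by
      rw [← LinearMap.comp_apply, ← LinearMap.comp_apply, LinearMap.lTensor_comp_rTensor,
        LinearMap.rTensor_comp_lTensor]
    rw [this, hw, map_smul]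
    exact hpD P _
  have h3 : ∃ w', w = p • w' := by
    rw [← one_tmul_eq_zero_iff]
    have : (TensorProduct.assoc R D I (LinearMap.ker π)) (q.rTensor (LinearMap.ker π) w) =
        (1 : D) ⊗ₜ[R] w := by
      clear hw h2
      induction w using TensorProduct.induction_on with
      | zero => simp
      | tmul a k => simp [q]
      | add u v hu hv => rw [map_add, map_add, hu, hv, TensorProduct.tmul_add]
    rw [← this, h2, map_zero]
  obtain ⟨w', rfl⟩ := h3
  have h4 : p • (η - (LinearMap.ker π).subtype.lTensor I w') = 0 := by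
    rw [smul_sub, ← hw, map_smul, sub_self]
  have h5 : ∀ z : I ⊗[R] P, p • z = 0 → z = 0 := by
    have hm : Function.Injective (LinearMap.lsmul R I p) := by
      rw [injective_iff_map_eq_zero]
      exact fun x hx => hI x hx
    have := Module.Flat.rTensor_preserves_injective_linearMap (M := P) _ hm
    rw [injective_iff_map_eq_zero] at this
    intro z hz
    apply this
    have h6 : (LinearMap.lsmul R I p).rTensor P z = p • z := by
      clear hz
      induction z using TensorProduct.induction_on with
      | zero => simp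
      | tmul a k => simp [TensorProduct.smul_tmul']
      | add u v hu hv => rw [map_add, hu, hv, smul_add]
    rw [h6, hz]
  have h7 := sub_eq_zero.1 (h5 _ h4)
  rw [h7]
  exact (hex2 _).2 ⟨w', rfl⟩

/-- If `p` is regular on `I` and on `X` and `X ⧸ p` is flat over `R ⧸ p` then `p` is regular on
`I ⊗ X`. -/
theorem tensor_regular {I X : Type} [AddCommGroup I] [Module R I] [AddCommGroup X] [Module R X]
    (hI : ∀ x : I, p • x = 0 → x = 0) (hX : ∀ x : X, p • x = 0 → x = 0)
    [Module.Flat (R ⧸ Ideal.span {p}) ((R ⧸ Ideal.span {p}) ⊗[R] X)] (ξ : I ⊗[R] X)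
    (hξ : p • ξ = 0) : ξ = 0 :=
  tensor_regular_aux p (Finsupp.linearCombination R fun a : X ↦ a)
    (Finsupp.linearCombination_surjective _ Function.surjective_id) hI hX ξ hξ

end general

end Pool.Agent.Helper686.SK
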