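import Mathlib
import Pool.Agent.Helper686_SK.Alg1

/-!
# Kernels after tensoring with a torsion free `ℤ[X]`-module
-/

set_option autoImplicit false

namespace Pool.Agent.Helper686.SK

open TensorProduct Polynomial

/-- Torsion free modules, in the form used for the algebra. -/
def TF (R N : Type) [CommRing R] [AddCommGroup N] [Module R N] : Prop :=
  ∀ (r : R) (x : N), r ≠ 0 → r • x = 0 → x = 0

section Q

attribute [local instance] Polynomial.algebra

/-- The nonzero constants of `ℤ[X]`. -/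
noncomputable def nzc : Submonoid ℤ[X] := (nonZeroDivisors ℤ).map C

instance locQ : IsLocalization nzc ℚ[X] := Polynomial.isLocalization _ _

theorem mem_nzc_ne_zero {s : ℤ[X]} (hs : s ∈ nzc) : s ≠ 0 := by
  obtain ⟨n, hn, rfl⟩ := hs
  exact C_ne_zero.2 (nonZeroDivisors.ne_zero hn)

variable (N : Type) [AddCommGroup N] [Module ℤ[X] N]

instance locNQ : IsLocalizedModule nzc (TensorProduct.mk ℤ[X] ℚ[X] N 1) :=
  (isLocalizedModule_iff_isBaseChange nzc ℚ[X] _).2 (TensorProduct.isBaseChange ℤ[X] N ℚ[X])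

theorem torsionFree_Q (hN : TF ℤ[X] N) (l : ℚ[X]) (y : ℚ[X] ⊗[ℤ[X]] N) (hl : l ≠ 0)
    (hy : l • y = 0) : y = 0 := by
  obtain ⟨⟨n, s⟩, hns⟩ := IsLocalizedModule.surj nzc (TensorProduct.mk ℤ[X] ℚ[X] N 1) y
  obtain ⟨⟨r, s'⟩, hrs⟩ := IsLocalization.surj nzc l
  simp only at hns hrs
  have hr : r ≠ 0 := by
    rintro rfl
    rw [map_zero] at hrs
    rcases mul_eq_zero.1 hrs with h | h
    · exact hl h
    · have := IsLocalization.map_units ℚ[X] s'
      rw [h] at this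
      exact not_isUnit_zero this
  have h1 : r • (s • y) = 0 := by
    have h2 : (s' : ℤ[X]) • ((s : ℤ[X]) • (l • y)) = 0 := by rw [hy, smul_zero, smul_zero]
    have h3 : (s' : ℤ[X]) • ((s : ℤ[X]) • (l • y)) = r • ((s : ℤ[X]) • y) := by
      rw [← algebraMap_smul ℚ[X] (s' : ℤ[X]), ← algebraMap_smul ℚ[X] (s : ℤ[X]) (l • y),
        ← algebraMap_smul ℚ[X] (s : ℤ[X]) y,
        ← algebraMap_smul ℚ[X] r, ← hrs, smul_smul, smul_smul, smul_smul]
      congr 1
      ring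
    rw [h3] at h2
    exact h2
  rw [hns, ← map_smul, IsLocalizedModule.eq_zero_iff nzc] at h1
  obtain ⟨s'', h4⟩ := h1
  have h5 : n = 0 := by
    apply hN r n hr
    exact hN (s'' : ℤ[X]) _ (mem_nzc_ne_zero s''.2) h4
  rw [h5, map_zero] at hns
  have h6 := IsLocalization.map_units ℚ[X] s
  have h7 : algebraMap ℤ[X] ℚ[X] s • y = 0 := by
    rw [algebraMap_smul]; exact hns
  exact (IsUnit.smul_eq_zero h6).1 h7

theorem flat_Q (hN : TF ℤ[X] N) : Module.Flat ℤ[X] (ℚ[X] ⊗[ℤ[X]] N) := by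
  have h1 : Module.IsTorsionFree ℚ[X] (ℚ[X] ⊗[ℤ[X]] N) :=
    Module.isTorsionFree_iff_smul_eq_zero.2 fun l y h => by
      by_cases hl : l = 0
      · exact Or.inl hl
      · exact Or.inr (torsionFree_Q N hN l y hl h)
  have h2 : Module.Flat ℚ[X] (ℚ[X] ⊗[ℤ[X]] N) := inferInstance
  have h3 : Module.Flat ℤ[X] ℚ[X] := IsLocalization.flat ℚ[X] nzc
  exact Module.Flat.trans ℤ[X] ℚ[X] _

/-- If `N` is torsion free and `j` is injective, the kernel of `j ⊗ N` is killed by nonzero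
integers. -/
theorem ker_rTensor (hN : TF ℤ[X] N) {I J : Type} [AddCommGroup I] [Module ℤ[X] I]
    [AddCommGroup J] [Module ℤ[X] J] (j : I →ₗ[ℤ[X]] J) (hj : Function.Injective j)
    (ξ : I ⊗[ℤ[X]] N) (hξ : j.rTensor N ξ = 0) : ∃ n : ℤ, n ≠ 0 ∧ (C n : ℤ[X]) • ξ = 0 := by
  have := flat_Q N hN
  let q : N →ₗ[ℤ[X]] ℚ[X] ⊗[ℤ[X]] N := TensorProduct.mk ℤ[X] ℚ[X] N 1
  have h1 : q.lTensor I ξ = 0 := by
    apply Module.Flat.rTensor_preserves_injective_linearMap (M := ℚ[X] ⊗[ℤ[X]] N) j hj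
    rw [map_zero, ← LinearMap.comp_apply, LinearMap.rTensor_comp_lTensor,
      ← LinearMap.lTensor_comp_rTensor, LinearMap.comp_apply, hξ, map_zero]
  have h2 : (1 : ℚ[X]) ⊗ₜ[ℤ[X]] ξ = 0 := by
    have h3 : (TensorProduct.leftComm ℤ[X] I ℚ[X] N) (q.lTensor I ξ) = (1 : ℚ[X]) ⊗ₜ ξ := by
      clear h1 hξ
      induction ξ using TensorProduct.induction_on with
      | zero => simp
      | tmul a k => simp [q]
      | add u v hu hv => rw [map_add, map_add, hu, hv, TensorProduct.tmul_add]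
    rw [← h3, h1, map_zero]
  have h4 : (TensorProduct.mk ℤ[X] ℚ[X] (I ⊗[ℤ[X]] N) 1) ξ = 0 := h2
  rw [IsLocalizedModule.eq_zero_iff nzc] at h4
  obtain ⟨⟨s, n, hn, rfl⟩, hs⟩ := h4
  exact ⟨n, nonZeroDivisors.ne_zero hn, hs⟩

end Q

end Pool.Agent.Helper686.SK
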