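import Mathlib
import Pool.Agent.Helper686_SK.Alg2

/-!
# A module over `ℤ[X]` whose tensor square is torsion free is flat
-/

set_option autoImplicit false

namespace Pool.Agent.Helper686.SK

open TensorProduct Polynomial

/-- The quotient `ℤ[X] ⧸ p`. -/
abbrev Dp (p : ℕ) : Type := ℤ[X] ⧸ Ideal.span {(C (p : ℤ) : ℤ[X])}

theorem Dp_pid (p : ℕ) (hp : p.Prime) : IsDomain (Dp p) ∧ IsPrincipalIdealRing (Dp p) := by
  have hprime : Prime (p : ℤ) := Nat.prime_iff_prime_int.1 hp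
  have hne : Ideal.span {(p : ℤ)} ≠ ⊥ := by
    rw [Ne, Ideal.span_singleton_eq_bot]
    exact hprime.ne_zero
  have hmax : (Ideal.span {(p : ℤ)}).IsMaximal :=
    (Ideal.span_singleton_prime hprime.ne_zero).2 hprime |>.isMaximal hne
  let _ := Ideal.Quotient.field (Ideal.span {(p : ℤ)})
  have e : (ℤ ⧸ Ideal.span {(p : ℤ)})[X] ≃+* Dp p :=
    (Ideal.polynomialQuotientEquivQuotientPolynomial (Ideal.span {(p : ℤ)})).trans
      (Ideal.quotEquivOfEq (by rw [Ideal.map_span, Set.image_singleton]))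
  exact ⟨e.symm.toMulEquiv.isDomain, IsPrincipalIdealRing.of_surjective e.toRingHom e.surjective⟩

/-- `X ⧸ p` is torsion free over `ℤ[X] ⧸ p`. -/
def ModTF (p : ℕ) (X : Type) [AddCommGroup X] [Module ℤ[X] X] : Prop :=
  ∀ (f : ℤ[X]) (x y : X), ¬ (C (p : ℤ) : ℤ[X]) ∣ f → f • x = (C (p : ℤ) : ℤ[X]) • y →
    ∃ z : X, x = (C (p : ℤ) : ℤ[X]) • z

theorem mk_eq_zero_iff_dvd (p : ℕ) (f : ℤ[X]) :
    (Ideal.Quotient.mk (Ideal.span {(C (p : ℤ) : ℤ[X])}) f = 0) ↔ (C (p : ℤ) : ℤ[X]) ∣ f := by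
  rw [Ideal.Quotient.eq_zero_iff_mem, Ideal.mem_span_singleton]

theorem mk_smul_one_tmul (p : ℕ) {X : Type} [AddCommGroup X] [Module ℤ[X] X] (f : ℤ[X]) (x : X) :
    (Ideal.Quotient.mk (Ideal.span {(C (p : ℤ) : ℤ[X])}) f : Dp p) • ((1 : Dp p) ⊗ₜ[ℤ[X]] x) =
      (1 : Dp p) ⊗ₜ[ℤ[X]] (f • x) := by
  rw [TensorProduct.smul_tmul', smul_eq_mul, mul_one, ← TensorProduct.smul_tmul]
  congr 1
  exact Algebra.algebraMap_eq_smul_one f

theorem flat_mod (p : ℕ) (hp : p.Prime) (X : Type) [AddCommGroup X] [Module ℤ[X] X]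
    (h : ModTF p X) : Module.Flat (Dp p) (Dp p ⊗[ℤ[X]] X) := by
  obtain ⟨h1, h2⟩ := Dp_pid p hp
  have h3 : Module.IsTorsionFree (Dp p) (Dp p ⊗[ℤ[X]] X) :=
    Module.isTorsionFree_iff_smul_eq_zero.2 fun d z hz => by
      by_cases hd : d = 0
      · exact Or.inl hd
      right
      obtain ⟨f, rfl⟩ := Ideal.Quotient.mk_surjective d
      obtain ⟨x, rfl⟩ := exists_one_tmul _ _ z
      rw [mk_smul_one_tmul, one_tmul_eq_zero_iff] at hz
      obtain ⟨y, hy⟩ := hz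
      rw [mk_eq_zero_iff_dvd] at hd
      obtain ⟨z, hz⟩ := h f x y hd hy
      rw [one_tmul_eq_zero_iff]
      exact ⟨z, hz⟩
  infer_instance

theorem C_ne_zero' {p : ℕ} (hp : p.Prime) : (C (p : ℤ) : ℤ[X]) ≠ 0 :=
  C_ne_zero.2 (by exact_mod_cast hp.ne_zero)

theorem clear_int {W : Type} [AddCommGroup W] [Module ℤ[X] W]
    (h : ∀ (p : ℕ), p.Prime → ∀ ξ : W, (C (p : ℤ) : ℤ[X]) • ξ = 0 → ξ = 0) (k : ℕ) (n : ℤ)
    (hk : n.natAbs = k) (hn : n ≠ 0) (ξ : W) (hξ : (C n : ℤ[X]) • ξ = 0) : ξ = 0 := by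
  induction k using Nat.strong_induction_on generalizing n ξ with
  | _ k ih =>
    by_cases h1 : n.natAbs = 1
    · have h2 : n * n = 1 := by
        rcases Int.natAbs_eq n with h3 | h3 <;> rw [h3, h1] <;> norm_num
      have h3 : (C n : ℤ[X]) • (C n : ℤ[X]) • ξ = 0 := by rw [hξ, smul_zero]
      rw [smul_smul, ← C_mul, h2, C_1, one_smul] at h3
      exact h3
    · obtain ⟨p, hp, hpn⟩ := Nat.exists_prime_and_dvd h1
      have hpn' : (p : ℤ) ∣ n := Int.natCast_dvd.2 hpn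
      obtain ⟨m, rfl⟩ := hpn'
      have hm : m ≠ 0 := right_ne_zero_of_mul hn
      rw [C_mul, ← smul_smul] at hξ
      have h4 := h p hp _ hξ
      refine ih m.natAbs ?_ m rfl hm ξ h4
      rw [← hk, Int.natAbs_mul, Int.natAbs_natCast]
      have := hp.two_le
      have h5 : 0 < m.natAbs := Int.natAbs_pos.2 hm
      nlinarith

/-- Tensoring with `X` preserves the injectivity of maps from torsion free modules if `X` is
torsion free and all `X ⧸ p` are torsion free. -/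
theorem rTensor_inj {X I J : Type} [AddCommGroup X] [Module ℤ[X] X] [AddCommGroup I]
    [Module ℤ[X] I] [AddCommGroup J] [Module ℤ[X] J] (hX : TF ℤ[X] X)
    (j : I →ₗ[ℤ[X]] J) (hj : Function.Injective j)
    (hreg : ∀ (p : ℕ), p.Prime → ∀ ξ : I ⊗[ℤ[X]] X, (C (p : ℤ) : ℤ[X]) • ξ = 0 → ξ = 0) :
    Function.Injective (j.rTensor X) := by
  rw [injective_iff_map_eq_zero]
  intro ξ hξ
  obtain ⟨n, hn, hnξ⟩ := ker_rTensor X hX j hj ξ hξ
  exact clear_int hreg _ n rfl hn ξ hnξ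

theorem flat_of_modTF (X : Type) [AddCommGroup X] [Module ℤ[X] X] (hX : TF ℤ[X] X)
    (h : ∀ p : ℕ, p.Prime → ModTF p X) : Module.Flat ℤ[X] X := by
  rw [Module.Flat.iff_rTensor_injective']
  intro I
  refine rTensor_inj hX _ Subtype.val_injective fun p hp ξ hξ => ?_
  have := flat_mod p hp X (h p hp)
  refine tensor_regular _ (fun x hx => ?_) (fun x hx => hX _ _ (C_ne_zero' hp) hx) ξ hξ
  have h1 : (C (p : ℤ) : ℤ[X]) * (x : ℤ[X]) = 0 := by
    have := congrArg Subtype.val hx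
    simpa using this
  rcases mul_eq_zero.1 h1 with h2 | h2
  · exact absurd h2 (C_ne_zero' hp)
  · exact Subtype.ext h2

/-- If `g ⊗ n = 0`, `G` is flat and the annihilator of `n` is generated by `h` then `g` is a
multiple of `h`. -/
theorem flat_tmul_zero {D G N : Type} [CommRing D] [AddCommGroup G] [Module D G]
    [AddCommGroup N] [Module D N] [Module.Flat D G] (h : D) (n : N) (hn : h • n = 0)
    (hann : ∀ d : D, d • n = 0 → h ∣ d) (g : G) (hz : g ⊗ₜ[D] n = 0) : ∃ y, g = h • y := by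
  let ψ : (D ⧸ Ideal.span {h}) →ₗ[D] N :=
    (Ideal.span {h}).liftQ (LinearMap.toSpanSingleton D N n) (by
      rw [Ideal.span_le, Set.singleton_subset_iff]
      simpa using hn)
  have hψ : Function.Injective ψ := by
    rw [injective_iff_map_eq_zero]
    intro d hd
    obtain ⟨d, rfl⟩ := Submodule.Quotient.mk_surjective _ d
    have h1 : d • n = 0 := hd
    rw [Submodule.Quotient.mk_eq_zero, Ideal.mem_span_singleton]
    exact hann d h1
  have h1 := Module.Flat.lTensor_preserves_injective_linearMap (M := G) ψ hψ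
  have h2 : g ⊗ₜ[D] (1 : D ⧸ Ideal.span {h}) = 0 := by
    apply h1
    rw [map_zero, LinearMap.lTensor_tmul]
    have : ψ 1 = n := (one_smul D n : (1 : D) • n = n)
    rw [this, hz]
  have h3 : (1 : D ⧸ Ideal.span {h}) ⊗ₜ[D] g = 0 := by
    have := congrArg (TensorProduct.comm D _ _) h2
    simpa using this
  exact (one_tmul_eq_zero_iff h G g).1 h3

theorem modTF_free (p : ℕ) (hp : p.Prime) (ι : Type) : ModTF p (ι →₀ ℤ[X]) := by
  intro f x y hf hxy
  have hprime : Prime (C (p : ℤ) : ℤ[X]) := Polynomial.prime_C_iff.2 (Nat.prime_iff_prime_int.1 hp)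
  have h1 : ∀ i, (C (p : ℤ) : ℤ[X]) ∣ x i := by
    intro i
    have := DFunLike.congr_fun hxy i
    simp only [Finsupp.smul_apply, smul_eq_mul] at this
    have h2 : (C (p : ℤ) : ℤ[X]) ∣ f * x i := ⟨y i, this⟩
    exact (hprime.dvd_or_dvd h2).resolve_left hf
  choose z hz using h1
  refine ⟨Finsupp.onFinset x.support z fun i hi => ?_, ?_⟩
  · rw [Finsupp.mem_support_iff, hz i]
    exact mul_ne_zero (C_ne_zero' hp) hi
  · ext1 i
    simp only [Finsupp.smul_apply, smul_eq_mul, Finsupp.onFinset_apply]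
    exact hz i

theorem tf_free (ι : Type) : TF ℤ[X] (ι →₀ ℤ[X]) := by
  intro r x hr hx
  ext1 i
  have := DFunLike.congr_fun hx i
  simp only [Finsupp.smul_apply, smul_eq_mul, Finsupp.coe_zero, Pi.zero_apply] at this ⊢
  exact (mul_eq_zero.1 this).resolve_left hr

theorem modTF_ker {F N : Type} [AddCommGroup F] [Module ℤ[X] F] [AddCommGroup N] [Module ℤ[X] N]
    (π : F →ₗ[ℤ[X]] N) (p : ℕ) (hp : p.Prime) (hF : ModTF p F) (hN : TF ℤ[X] N) :
    ModTF p (LinearMap.ker π) := by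
  intro f x y hf hxy
  obtain ⟨z, hz⟩ := hF f x y hf (congrArg Subtype.val hxy)
  have hz' : π z = 0 := by
    apply hN _ _ (C_ne_zero' hp)
    rw [← map_smul, ← hz]
    exact x.2
  exact ⟨⟨z, hz'⟩, Subtype.ext hz⟩

/-- The main step. -/
theorem modTF_of_square {F N : Type} [AddCommGroup F] [Module ℤ[X] F] [AddCommGroup N]
    [Module ℤ[X] N] (π : F →ₗ[ℤ[X]] N) (hπ : Function.Surjective π) (hF : TF ℤ[X] F)
    (hFp : ∀ p : ℕ, p.Prime → ModTF p F) (hN : TF ℤ[X] N) (hNN : TF ℤ[X] (N ⊗[ℤ[X]] N))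
    (p : ℕ) (hp : p.Prime) : ModTF p N := by
  intro f n m hf hfn
  obtain ⟨hdom, hpid⟩ := Dp_pid p hp
  -- the annihilator of `n` modulo `p`
  let G := LinearMap.ker π
  let P : ℤ[X] := C (p : ℤ)
  let nb : Dp p ⊗[ℤ[X]] N := 1 ⊗ₜ n
  let ann : Ideal (Dp p) := LinearMap.ker (LinearMap.toSpanSingleton (Dp p) _ nb)
  obtain ⟨hb, hhb⟩ := (IsPrincipalIdealRing.principal ann).principal
  obtain ⟨h, rfl⟩ := Ideal.Quotient.mk_surjective hb
  have hann : ∀ d : Dp p, d • nb = 0 → Ideal.Quotient.mk _ h ∣ d := by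
    intro d hd
    have : d ∈ ann := hd
    rw [hhb] at this
    exact Ideal.mem_span_singleton.1 this
  have hhn : (Ideal.Quotient.mk (Ideal.span {P}) h : Dp p) • nb = 0 := by
    have : (Ideal.Quotient.mk (Ideal.span {P}) h : Dp p) ∈ ann := by
      rw [hhb]; exact Ideal.mem_span_singleton_self _
    exact this
  have hh : ¬ P ∣ h := by
    intro hdvd
    rw [← mk_eq_zero_iff_dvd] at hdvd
    have h1 : (Ideal.Quotient.mk (Ideal.span {P}) f : Dp p) • nb = 0 := by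
      rw [mk_smul_one_tmul, one_tmul_eq_zero_iff]
      exact ⟨m, hfn⟩
    have h2 := hann _ h1
    rw [hdvd, zero_dvd_iff, mk_eq_zero_iff_dvd] at h2
    exact hf h2
  clear hfn hf f m
  rw [mk_smul_one_tmul, one_tmul_eq_zero_iff] at hhn
  obtain ⟨m, hm⟩ := hhn
  obtain ⟨n', rfl⟩ := hπ n
  obtain ⟨m', rfl⟩ := hπ m
  let g : G := ⟨h • n' - P • m', by
    rw [LinearMap.mem_ker, map_sub, map_smul, map_smul, hm, sub_self]⟩
  have hGreg : ∀ (q : ℕ), q.Prime → ∀ ξ : G ⊗[ℤ[X]] N, (C (q : ℤ) : ℤ[X]) • ξ = 0 → ξ = 0 := by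
    intro q hq ξ hξ
    have := flat_mod q hq G (modTF_ker π q hq (hFp q hq) hN)
    have hG : ∀ x : G, (C (q : ℤ) : ℤ[X]) • x = 0 → x = 0 := fun x hx =>
      Subtype.ext (hF _ _ (C_ne_zero' hq) (congrArg Subtype.val hx))
    have h1 := tensor_regular (C (q : ℤ) : ℤ[X]) (fun x hx => hN _ _ (C_ne_zero' hq) hx) hG
      (TensorProduct.comm ℤ[X] G N ξ) (by rw [← map_smul, hξ, map_zero])
    exact (TensorProduct.comm ℤ[X] G N).map_eq_zero_iff.1 h1
  have hinj : Function.Injective (G.subtype.rTensor N) :=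
    rTensor_inj hN _ Subtype.val_injective hGreg
  have hex : Function.Exact (G.subtype.rTensor N) (π.rTensor N) :=
    rTensor_exact N (LinearMap.exact_subtype_ker_map π) hπ
  -- the element `g ⊗ n`
  let v : F ⊗[ℤ[X]] N := n' ⊗ₜ π m' - m' ⊗ₜ π n'
  have hv : G.subtype.rTensor N (g ⊗ₜ π n') = P • v := by
    rw [LinearMap.rTensor_tmul]
    change (h • n' - P • m') ⊗ₜ[ℤ[X]] π n' = P • (n' ⊗ₜ π m' - m' ⊗ₜ π n')
    rw [TensorProduct.sub_tmul, TensorProduct.smul_tmul, hm, TensorProduct.tmul_smul,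
      ← TensorProduct.smul_tmul', smul_sub]
  have hv2 : π.rTensor N v = 0 := by
    apply hNN _ _ (C_ne_zero' hp)
    rw [← map_smul, ← hv]
    exact (hex _).2 ⟨_, rfl⟩
  obtain ⟨w, hw⟩ := (hex _).1 hv2
  have hgw : g ⊗ₜ[ℤ[X]] π n' = P • w := by
    apply hinj
    rw [hv, map_smul, hw]
  -- reduction modulo `p`
  have hflat := flat_mod p hp G (modTF_ker π p hp (hFp p hp) hN)
  have h1 : ((1 : Dp p) ⊗ₜ[ℤ[X]] g) ⊗ₜ[Dp p] nb = 0 := by
    have h2 : (AlgebraTensorModule.distribBaseChange ℤ[X] (Dp p) G N)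
        ((1 : Dp p) ⊗ₜ[ℤ[X]] (g ⊗ₜ[ℤ[X]] π n')) = ((1 : Dp p) ⊗ₜ[ℤ[X]] g) ⊗ₜ[Dp p] nb := by
      rw [AlgebraTensorModule.distribBaseChange_tmul]
    rw [← h2, (one_tmul_eq_zero_iff P _ _).2 ⟨w, hgw⟩, map_zero]
  have hhn2 : (Ideal.Quotient.mk (Ideal.span {P}) h : Dp p) • nb = 0 := by
    rw [mk_smul_one_tmul, one_tmul_eq_zero_iff]
    exact ⟨_, hm⟩
  obtain ⟨y, hy⟩ := flat_tmul_zero _ nb hhn2 hann _ h1
  obtain ⟨g', rfl⟩ := exists_one_tmul _ _ y
  rw [mk_smul_one_tmul, ← sub_eq_zero, ← TensorProduct.tmul_sub, one_tmul_eq_zero_iff] at hy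
  obtain ⟨g'', hg''⟩ := hy
  have h3 : (h • n' - P • m') - h • (g' : F) = P • (g'' : F) := congrArg Subtype.val hg''
  have h4 : h • (n' - (g' : F)) = P • (m' + (g'' : F)) := by
    rw [smul_sub, smul_add, ← h3]; abel
  obtain ⟨z, hz⟩ := hFp p hp h _ _ hh h4
  refine ⟨π z, ?_⟩
  have h5 : π (g' : F) = 0 := g'.2
  rw [← map_smul, ← hz, map_sub, h5, sub_zero]

/-- A module over `ℤ[X]` which is torsion free together with its tensor square is flat. -/
theorem flat_of_square (N : Type) [AddCommGroup N] [Module ℤ[X] N] (hN : TF ℤ[X] N)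
    (hNN : TF ℤ[X] (N ⊗[ℤ[X]] N)) : Module.Flat ℤ[X] N :=
  flat_of_modTF N hN fun p hp => modTF_of_square (Finsupp.linearCombination ℤ[X] fun a : N ↦ a)
    (Finsupp.linearCombination_surjective _ Function.surjective_id) (tf_free N)
    (fun q hq => modTF_free q hq N) hN hNN p hp

/-- The same for Laurent polynomials. -/
theorem flat_laurent_of_square (N : Type) [AddCommGroup N] [Module (LaurentPolynomial ℤ) N]
    (hN : TF (LaurentPolynomial ℤ) N)
    (hNN : TF (LaurentPolynomial ℤ) (N ⊗[LaurentPolynomial ℤ] N)) :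
    Module.Flat (LaurentPolynomial ℤ) N := by
  let _ : Module ℤ[X] N := Module.compHom N (algebraMap ℤ[X] (LaurentPolynomial ℤ))
  have : IsScalarTower ℤ[X] (LaurentPolynomial ℤ) N :=
    IsScalarTower.of_algebraMap_smul fun r x => rfl
  have hne : ∀ r : ℤ[X], r ≠ 0 → algebraMap ℤ[X] (LaurentPolynomial ℤ) r ≠ 0 := by
    intro r hr h
    apply hr
    apply Polynomial.toLaurent_injective
    rw [map_zero]
    exact h
  have h1 : TF ℤ[X] N := by
    intro r x hr hx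
    apply hN (algebraMap ℤ[X] (LaurentPolynomial ℤ) r) x (hne r hr)
    rw [algebraMap_smul]
    exact hx
  have h2 : TF ℤ[X] (N ⊗[ℤ[X]] N) := by
    intro r x hr hx
    let e := IsLocalization.moduleTensorEquiv (Submonoid.powers (X : ℤ[X])) (LaurentPolynomial ℤ)
      N N
    apply e.symm.map_eq_zero_iff.1
    apply hNN (algebraMap ℤ[X] (LaurentPolynomial ℤ) r) _ (hne r hr)
    rw [← map_smul, algebraMap_smul, hx, map_zero]
  have h3 := flat_of_square N h1 h2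
  exact (Module.flat_iff_of_isLocalization (LaurentPolynomial ℤ)
    (Submonoid.powers (X : ℤ[X])) N).2 h3

end Pool.Agent.Helper686.SK
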