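import Mathlib

/-!
# The Kauffman bracket skein module of an oriented 3-manifold

The topological category: a 3-manifold is a second countable Hausdorff space locally homeomorphic
to the half space, links and surfaces are tame, isotopies are ambient. In dimension three this
category is equivalent to the smooth and to the piecewise linear one (Moise, Bing).
-/

set_option autoImplicit false

namespace Pool.Agent.Helper686.SK

open Topology unitInterval

/-- Euclidean space with the coordinates `x = p.1`, `y = p.2.1`, `z = p.2.2`. -/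
abbrev E3 : Type := ℝ × ℝ × ℝ

/-- The reflection of Euclidean space in the plane `z = 0`. -/
def flip (p : E3) : E3 := (p.1, p.2.1, -p.2.2)

/-- `X` is locally homeomorphic to the half space: every point of `X` lies in the image of an open
embedding `g` of an open subset of the half space `z ≥ 0`. -/
def LocallyHalfSpace (X : Type) [TopologicalSpace X] : Prop :=
  ∀ x : X, ∃ V : Set E3, IsOpen V ∧ ∃ g : ↥(V ∩ {p | 0 ≤ p.2.2}) → X,
    IsOpenEmbedding g ∧ x ∈ Set.range g

/-- An oriented 3-manifold, possibly with boundary, not necessarily compact or connected. The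
orientation is given by the set `pos` of the positively oriented open embeddings `φ` of Euclidean
space in `X`: exactly one of `φ` and `φ ∘ flip` is positively oriented, and being positively
oriented is invariant under isotopy of open embeddings. -/
structure OM3 : Type 1 where
  X : Type
  [top : TopologicalSpace X]
  [t2 : T2Space X]
  [sc : SecondCountableTopology X]
  chart : LocallyHalfSpace X
  pos : Set (E3 → X)
  pos_emb : ∀ φ ∈ pos, IsOpenEmbedding φ
  pos_flip : ∀ φ : E3 → X, IsOpenEmbedding φ → (φ ∘ flip ∈ pos ↔ φ ∉ pos)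
  pos_iso : ∀ Φ : I × E3 → X, Continuous Φ → (∀ t, IsOpenEmbedding fun p => Φ (t, p)) →
    (fun p => Φ (0, p)) ∈ pos → (fun p => Φ (1, p)) ∈ pos

attribute [instance] OM3.top OM3.t2 OM3.sc

/-! ### Framed links -/

/-- The annulus `S¹ × [-1, 1] × 0` in `S¹ × ℝ × ℝ`. -/
def band : Set (Circle × ℝ × ℝ) := {q | |q.2.1| ≤ 1 ∧ q.2.2 = 0}

/-- `K` is a (tame, unoriented) framed link in the interior of `X`: the union of finitely many
disjoint annuli, each of which is the image of the annulus `S¹ × [-1, 1] × 0` under an open
embedding of `S¹ × ℝ × ℝ`. The empty set is the empty link. -/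
def IsFramedLink {X : Type} [TopologicalSpace X] (K : Set X) : Prop :=
  ∃ (ι : Type) (_ : Finite ι) (Φ : ι → Circle × ℝ × ℝ → X), (∀ i, IsOpenEmbedding (Φ i)) ∧
    (∀ i j, i ≠ j → Disjoint (Set.range (Φ i)) (Set.range (Φ j))) ∧ K = ⋃ i, Φ i '' band

/-- `K` and `K'` are ambient isotopic: a level preserving homeomorphism `H` of `[0, 1] × X` which is
the identity at the level `0` carries `K` to `K'` at the level `1`. -/
def Isotopic {X : Type} [TopologicalSpace X] (K K' : Set X) : Prop :=
  ∃ H : (I × X) ≃ₜ (I × X), (∀ p, (H p).1 = p.1) ∧ (∀ x, H (0, x) = (0, x)) ∧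
    (fun x => (H (1, x)).2) '' K = K'

/-- The closed ball of radius `3`. -/
def ball : Set E3 := {p | p.1 ^ 2 + p.2.1 ^ 2 + p.2.2 ^ 2 ≤ 9}

/-- Two crossing bands of width about `1/4`: the band along the diagonal `x = y` passes over (at
the height `z = max 0 (1 - |x + y|)`) the band along the diagonal `x = -y` (at the height
`z = - max 0 (1 - |x - y|)`). -/
def crossing : Set E3 :=
  {p | (|p.1 - p.2.1| ≤ 1 / 4 ∧ p.2.2 = max 0 (1 - |p.1 + p.2.1|)) ∨
    (|p.1 + p.2.1| ≤ 1 / 4 ∧ p.2.2 = - max 0 (1 - |p.1 - p.2.1|))}

/-- The smoothing of the crossing with the coefficient `A`, two bands around the curves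
`x = max |y| 1` and `x = - max |y| 1` in the plane `z = 0`: it joins the two of the four regions at
the crossing which the upper band sweeps over when it is turned counterclockwise. -/
def smoothA : Set E3 := {p | p.2.2 = 0 ∧ |(|p.1| - max |p.2.1| 1)| ≤ 1 / 4}

/-- The smoothing of the crossing with the coefficient `A⁻¹`, two bands around the curves
`y = max |x| 1` and `y = - max |x| 1` in the plane `z = 0`. -/
def smoothB : Set E3 := {p | p.2.2 = 0 ∧ |(|p.2.1| - max |p.1| 1)| ≤ 1 / 4}

/-- A flat annulus in the plane `z = 0`. -/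
def annulus : Set E3 := {p | p.2.2 = 0 ∧ 1 ≤ p.1 ^ 2 + p.2.1 ^ 2 ∧ p.1 ^ 2 + p.2.1 ^ 2 ≤ 4}

/-- Inside the ball `φ '' ball` the set `K` is the picture `P`. -/
def Inside {X : Type} (φ : E3 → X) (K : Set X) (P : Set E3) : Prop :=
  ∀ p ∈ ball, φ p ∈ K ↔ p ∈ P

/-- `K`, `KA` and `KB` agree outside the ball `φ '' ball`, where `φ` is a positively oriented
open embedding of Euclidean space, and inside this ball they are the crossing and its two
smoothings. -/
def SkeinTriple (M : OM3) (K KA KB : Set M.X) : Prop :=
  ∃ φ ∈ M.pos, Inside φ K crossing ∧ Inside φ KA smoothA ∧ Inside φ KB smoothB ∧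
    K \ φ '' ball = KA \ φ '' ball ∧ K \ φ '' ball = KB \ φ '' ball

/-- `K'` is the union of `K` and a trivially framed unknot in a ball disjoint from `K`. -/
def AddsCircle (M : OM3) (K K' : Set M.X) : Prop :=
  ∃ φ ∈ M.pos, Disjoint (φ '' ball) K ∧ K' = K ∪ φ '' annulus

/-- The framed links in `M`. -/
def FLink (M : OM3) : Type := {K : Set M.X // IsFramedLink K}

/-- The relations of the Kauffman bracket skein module over the commutative ring `R` with the unit
`a`: isotopic framed links are equal, `K = a KA + a⁻¹ KB` for a skein triple, and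
`K ⊔ O = (- a² - a⁻²) K`. -/
inductive Rel (M : OM3) (R : Type) [CommRing R] (a : Rˣ) : (FLink M →₀ R) → Prop
  | iso (K K' : FLink M) (h : Isotopic K.1 K'.1) :
      Rel M R a (Finsupp.single K 1 - Finsupp.single K' 1)
  | skein (K KA KB : FLink M) (h : SkeinTriple M K.1 KA.1 KB.1) :
      Rel M R a (Finsupp.single K 1 -
        (Finsupp.single KA (a : R) + Finsupp.single KB ((a⁻¹ : Rˣ) : R)))
  | circle (K K' : FLink M) (h : AddsCircle M K.1 K'.1) :
      Rel M R a (Finsupp.single K' 1 -
        Finsupp.single K (-(a : R) ^ 2 - ((a⁻¹ : Rˣ) : R) ^ 2))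

/-- The Kauffman bracket skein module of `M` over the commutative ring `R` with the unit `a`. -/
abbrev SkeinModule (M : OM3) (R : Type) [CommRing R] (a : Rˣ) : Type :=
  (FLink M →₀ R) ⧸ Submodule.span R {v | Rel M R a v}

/-- The variable `A` as a unit of the ring `ℤ[A, A⁻¹]`. -/
noncomputable def unitA : (LaurentPolynomial ℤ)ˣ where
  val := LaurentPolynomial.T 1
  inv := LaurentPolynomial.T (-1)
  val_inv := by rw [← LaurentPolynomial.T_add]; simp
  inv_val := by rw [← LaurentPolynomial.T_add]; simp

/-- The Kauffman bracket skein module `S_{2,∞}(M)` over `ℤ[A, A⁻¹]`. -/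
abbrev KBSM (M : OM3) : Type := SkeinModule M (LaurentPolynomial ℤ) unitA

/-- Torsion free modules: `r x = 0` implies `r = 0` or `x = 0`. -/
def TorsionFree (R N : Type) [CommRing R] [AddCommGroup N] [Module R N] : Prop :=
  ∀ (r : R) (x : N), r ≠ 0 → r • x = 0 → x = 0

/-! ### Closed surfaces -/

section surfaces

variable {X : Type} [TopologicalSpace X]

/-- `F` is a closed connected surface in the interior of `X`, two-sided and tame: it is compact
and connected, locally homeomorphic to the plane, and there is an open embedding of `F × ℝ` in `X`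
which is the identity on `F × 0`. -/
def IsClosedSurface (F : Set X) : Prop :=
  IsCompact F ∧ IsConnected F ∧
    (∀ x : F, ∃ φ : ℝ × ℝ → F, IsOpenEmbedding φ ∧ x ∈ Set.range φ) ∧
    ∃ Ψ : F × ℝ → X, IsOpenEmbedding Ψ ∧ ∀ x : F, Ψ (x, 0) = x

/-- The unit sphere in Euclidean space. -/
abbrev S2 : Type := Metric.sphere (0 : EuclideanSpace ℝ (Fin 3)) 1

/-- The closed unit ball in Euclidean space. -/
abbrev B3 : Type := Metric.closedBall (0 : EuclideanSpace ℝ (Fin 3)) 1

/-- `F` is a sphere. -/
def IsSphere (F : Set X) : Prop := Nonempty (F ≃ₜ S2)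

/-- `F` bounds a ball in `X`. -/
def BoundsBall (F : Set X) : Prop :=
  ∃ β : B3 → X, IsEmbedding β ∧ β '' {p | ‖(p : EuclideanSpace ℝ (Fin 3))‖ = 1} = F

/-- The inclusion of `F` induces an injection on the fundamental groups. -/
def PiOneInjective (F : Set X) : Prop :=
  ∀ (x : F) (γ : Path x x), (γ.map continuous_subtype_val).Homotopic (Path.refl (x : X)) →
    γ.Homotopic (Path.refl x)

/-- `F` is incompressible: if `F` is a sphere, it bounds no ball in `X`; otherwise the inclusion
induces an injection on the fundamental groups. -/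
def Incompressible (F : Set X) : Prop :=
  (IsSphere F ∧ ¬ BoundsBall F) ∨ (¬ IsSphere F ∧ PiOneInjective F)

/-- The boundary of the 3-manifold `X`: the points which have no neighbourhood homeomorphic to
Euclidean space. -/
def bdry (X : Type) [TopologicalSpace X] : Set X :=
  {x | ∀ φ : E3 → X, IsOpenEmbedding φ → x ∉ Set.range φ}

/-- `F` is parallel to the boundary: there is an embedding of `F × [0, 1]` which is the identity on
`F × 0` and carries `F × 1` to a component of the boundary. -/
def BoundaryParallel (F : Set X) : Prop :=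
  ∃ h : F × I → X, IsEmbedding h ∧ (∀ x : F, h (x, 0) = x) ∧
    ∃ y ∈ bdry X, h '' {p | p.2 = 1} = connectedComponentIn (bdry X) y

end surfaces

/-- Every closed incompressible surface in `M` is parallel to the boundary of `M`. -/
def InClass (M : OM3) : Prop :=
  ∀ F : Set M.X, IsClosedSurface F → Incompressible F → BoundaryParallel F

end Pool.Agent.Helper686.SK
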