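import Mathlib
import Pool.Agent.Helper686_SK.Defs

/-!
# Closed surfaces in a clopen part of a space
-/

set_option autoImplicit false

namespace Pool.Agent.Helper686.SK

open Topology unitInterval

section clopen

variable {X Z : Type} [TopologicalSpace X] [TopologicalSpace Z] {j : X → Z}

/-- A continuous map of a connected space to `Z` which meets the clopen set `range j` maps to
it. -/
theorem mem_range_of_connected (hj : IsOpenEmbedding j) (hc : IsClosed (Set.range j))
    {W : Type} [TopologicalSpace W] [PreconnectedSpace W] (f : W → Z) (hf : Continuous f) (w₀ : W)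
    (h₀ : f w₀ ∈ Set.range j) (w : W) : f w ∈ Set.range j := by
  have h : IsClopen (f ⁻¹' Set.range j) := ⟨hc.preimage hf, hj.isOpen_range.preimage hf⟩
  rcases isClopen_iff.1 h with h | h
  · exact absurd (show w₀ ∈ f ⁻¹' Set.range j from h₀) (by rw [h]; exact id)
  · have : w ∈ f ⁻¹' Set.range j := by rw [h]; trivial
    exact this

theorem subset_range_of_preconnected (hj : IsOpenEmbedding j) (hc : IsClosed (Set.range j))
    {S : Set Z} (hS : IsPreconnected S) {z : Z} (hz : z ∈ S) (hzj : z ∈ Set.range j) :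
    S ⊆ Set.range j :=
  hS.subset_isClopen ⟨hc, hj.isOpen_range⟩ ⟨z, hz, hzj⟩

theorem mem_bdry_iff (hj : IsOpenEmbedding j) (hc : IsClosed (Set.range j)) (x : X) :
    j x ∈ bdry Z ↔ x ∈ bdry X := by
  constructor
  · rintro h φ hφ ⟨p, rfl⟩
    exact h (j ∘ φ) (hj.comp hφ) ⟨p, rfl⟩
  · rintro h φ hφ ⟨p, hp⟩
    have h1 : ∀ q, ∃ y, j y = φ q := fun q =>
      mem_range_of_connected hj hc φ hφ.continuous p (by rw [hp]; exact ⟨x, rfl⟩) q
    choose ψ hψ using h1
    have h2 : j ∘ ψ = φ := funext hψ
    have h3 : IsOpenEmbedding ψ := (IsOpenEmbedding.of_comp_iff ψ hj).1 (by rw [h2]; exact hφ)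
    apply h ψ h3
    refine ⟨p, hj.injective ?_⟩
    rw [hψ, hp]

theorem component_image (hj : IsOpenEmbedding j) (hc : IsClosed (Set.range j)) {y : X}
    (hy : y ∈ bdry X) :
    connectedComponentIn (bdry Z) (j y) = j '' connectedComponentIn (bdry X) y := by
  have hy' : j y ∈ bdry Z := (mem_bdry_iff hj hc y).2 hy
  apply Set.Subset.antisymm
  · have h1 : IsPreconnected (connectedComponentIn (bdry Z) (j y)) :=
      isPreconnected_connectedComponentIn
    have h2 : connectedComponentIn (bdry Z) (j y) ⊆ Set.range j :=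
      subset_range_of_preconnected hj hc h1 (mem_connectedComponentIn hy') ⟨y, rfl⟩
    have h3 : j '' (j ⁻¹' connectedComponentIn (bdry Z) (j y)) =
        connectedComponentIn (bdry Z) (j y) := Set.image_preimage_eq_of_subset h2
    have h4 : IsPreconnected (j ⁻¹' connectedComponentIn (bdry Z) (j y)) := by
      rw [← hj.isInducing.isPreconnected_image, h3]
      exact h1
    rw [← h3]
    apply Set.image_mono
    apply h4.subset_connectedComponentIn (mem_connectedComponentIn hy')
    intro x hx
    rw [← mem_bdry_iff hj hc]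
    exact connectedComponentIn_subset _ _ hx
  · apply IsPreconnected.subset_connectedComponentIn
    · exact (hj.isInducing.isPreconnected_image).2 isPreconnected_connectedComponentIn
    · exact ⟨y, mem_connectedComponentIn hy, rfl⟩
    · rintro _ ⟨x, hx, rfl⟩
      rw [mem_bdry_iff hj hc]
      exact connectedComponentIn_subset _ _ hx

/-- The homeomorphism of a subset and its image. -/
noncomputable def imgHomeo (hj : IsOpenEmbedding j) (F : Set X) : F ≃ₜ (j '' F) :=
  hj.isEmbedding.homeomorphImage F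

theorem imgHomeo_apply (hj : IsOpenEmbedding j) (F : Set X) (x : F) :
    ((imgHomeo hj F x : j '' F) : Z) = j x := rfl

theorem imgHomeo_symm (hj : IsOpenEmbedding j) (F : Set X) (z : j '' F) :
    j ((imgHomeo hj F).symm z : F) = z := by
  rw [← imgHomeo_apply hj F, Homeomorph.apply_symm_apply]

theorem isClosedSurface_of_image (hj : IsOpenEmbedding j) (hc : IsClosed (Set.range j))
    {F : Set X} (h : IsClosedSurface (j '' F)) : IsClosedSurface F := by
  obtain ⟨h1, h2, h3, Ψ, h4, h5⟩ := h
  let e := imgHomeo hj F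
  refine ⟨hj.isInducing.isCompact_iff.2 h1, ⟨h2.1.of_image, ?_⟩, ?_, ?_⟩
  · exact (hj.isInducing.isPreconnected_image).1 h2.2
  · intro x
    obtain ⟨φ, hφ, p, hp⟩ := h3 (e x)
    refine ⟨e.symm ∘ φ, e.symm.isOpenEmbedding.comp hφ, p, ?_⟩
    rw [Function.comp_apply, hp, e.symm_apply_apply]
  · have h6 : ∀ q : F × ℝ, ∃ y, j y = Ψ (e q.1, q.2) := by
      intro q
      have hcont : Continuous fun t : ℝ => Ψ (e q.1, t) :=
        h4.continuous.comp (by fun_prop)
      exact mem_range_of_connected hj hc (fun t : ℝ => Ψ (e q.1, t)) hcont 0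
        (by rw [h5]; exact ⟨q.1, rfl⟩) q.2
    choose Φ hΦ using h6
    have h7 : j ∘ Φ = Ψ ∘ (e.prodCongr (Homeomorph.refl ℝ)) := funext hΦ
    refine ⟨Φ, (IsOpenEmbedding.of_comp_iff Φ hj).1 ?_, fun x => ?_⟩
    · rw [h7]
      exact h4.comp (Homeomorph.isOpenEmbedding _)
    · apply hj.injective
      rw [hΦ, h5]
      rfl

theorem isSphere_image (hj : IsOpenEmbedding j) (F : Set X) :
    IsSphere (j '' F) ↔ IsSphere F := by
  let e := imgHomeo hj F
  exact ⟨fun ⟨h⟩ => ⟨e.trans h⟩, fun ⟨h⟩ => ⟨e.symm.trans h⟩⟩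

theorem boundsBall_image (hj : IsOpenEmbedding j) {F : Set X} (h : BoundsBall F) :
    BoundsBall (j '' F) := by
  obtain ⟨β, hβ, hF⟩ := h
  exact ⟨j ∘ β, hj.isEmbedding.comp hβ, by rw [Set.image_comp, hF]⟩

theorem homotopic_of_eq_id {A : Type} [TopologicalSpace A] {x : A} (γ : Path x x) (k : A → A)
    (hk : Continuous k) (hid : ∀ y, k y = y)
    (h : (γ.map hk).Homotopic (Path.refl (k x))) : γ.Homotopic (Path.refl x) := by
  obtain rfl : k = id := funext hid
  have h1 : γ.map hk = γ := by ext t; rfl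
  rw [h1] at h
  exact h

theorem piOneInjective_of_image (hj : IsOpenEmbedding j) {F : Set X}
    (h : PiOneInjective (j '' F)) : PiOneInjective F := by
  intro x γ hγ
  let e := imgHomeo hj F
  have h1 : ((γ.map e.continuous).map continuous_subtype_val).Homotopic
      (Path.refl ((e x : j '' F) : Z)) := by
    have h2 := hγ.map ⟨j, hj.continuous⟩
    exact h2
  have h3 := h (e x) (γ.map e.continuous) h1
  have h4 := h3.map ⟨e.symm, e.symm.continuous⟩
  exact homotopic_of_eq_id γ (e.symm ∘ e) (e.symm.continuous.comp e.continuous)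
    e.symm_apply_apply h4

theorem incompressible_of_image (hj : IsOpenEmbedding j) {F : Set X}
    (h : Incompressible (j '' F)) : Incompressible F := by
  rcases h with ⟨h1, h2⟩ | ⟨h1, h2⟩
  · exact Or.inl ⟨(isSphere_image hj F).1 h1, fun h => h2 (boundsBall_image hj h)⟩
  · exact Or.inr ⟨fun h => h1 ((isSphere_image hj F).2 h), piOneInjective_of_image hj h2⟩

theorem boundaryParallel_image (hj : IsOpenEmbedding j) (hc : IsClosed (Set.range j))
    {F : Set X} (h : BoundaryParallel F) : BoundaryParallel (j '' F) := by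
  obtain ⟨h, h1, h2, y, hy, h3⟩ := h
  let e := imgHomeo hj F
  refine ⟨j ∘ h ∘ (e.symm.prodCongr (Homeomorph.refl I)), ?_, fun z => ?_, j y,
    (mem_bdry_iff hj hc y).2 hy, ?_⟩
  · exact hj.isEmbedding.comp (h1.comp (Homeomorph.isEmbedding _))
  · change j (h (e.symm z, 0)) = z
    rw [h2]
    exact imgHomeo_symm hj F z
  · rw [component_image hj hc hy, ← h3, Set.image_comp, Set.image_comp]
    congr 2
    ext ⟨x, t⟩
    constructor
    · rintro ⟨⟨z, s⟩, hs, hz⟩
      have : s = t := congrArg Prod.snd hz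
      exact this ▸ hs
    · intro ht
      exact ⟨(e x, t), ht, Prod.ext (e.symm_apply_apply x) rfl⟩

end clopen

end Pool.Agent.Helper686.SK
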