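import Mathlib
import Pool.Agent.Helper686_SK.Defs

/-!
# The disjoint union of two oriented 3-manifolds: links and relations
-/

set_option autoImplicit false

namespace Pool.Agent.Helper686.SK

open Topology unitInterval

section basic

variable {X Y Z : Type} [TopologicalSpace X] [TopologicalSpace Y] [TopologicalSpace Z]

/-- A continuous map of a connected space to a disjoint union maps to one of the summands. -/
theorem sum_cases [PreconnectedSpace Z] [Nonempty Z] (f : Z → X ⊕ Y) (hf : Continuous f) :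
    (∃ g : Z → X, f = Sum.inl ∘ g) ∨ (∃ g : Z → Y, f = Sum.inr ∘ g) := by
  have h : IsClopen (f ⁻¹' Set.range Sum.inl) :=
    ⟨isClosed_range_inl.preimage hf, isOpen_range_inl.preimage hf⟩
  rcases isClopen_iff.1 h with h | h
  · right
    have h1 : ∀ z, ∃ y, f z = Sum.inr y := by
      intro z
      rcases hz : f z with x | y
      · exact absurd (show z ∈ f ⁻¹' Set.range Sum.inl from ⟨x, hz.symm⟩) (by rw [h]; exact id)
      · exact ⟨y, rfl⟩
    choose g hg using h1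
    exact ⟨g, funext hg⟩
  · left
    have h1 : ∀ z, ∃ x, f z = Sum.inl x := by
      intro z
      have hz : z ∈ f ⁻¹' Set.range Sum.inl := by rw [h]; trivial
      obtain ⟨x, hx⟩ := hz
      exact ⟨x, hx.symm⟩
    choose g hg using h1
    exact ⟨g, funext hg⟩

theorem inl_comp_emb {g : Z → X} (h : IsOpenEmbedding ((Sum.inl : X → X ⊕ Y) ∘ g)) :
    IsOpenEmbedding g := (IsOpenEmbedding.of_comp_iff g IsOpenEmbedding.inl).1 h

theorem inr_comp_emb {g : Z → Y} (h : IsOpenEmbedding ((Sum.inr : Y → X ⊕ Y) ∘ g)) :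
    IsOpenEmbedding g := (IsOpenEmbedding.of_comp_iff g IsOpenEmbedding.inr).1 h

omit [TopologicalSpace X] [TopologicalSpace Y] [TopologicalSpace Z] in
theorem inl_cancel {g g' : Z → X} (h : (Sum.inl : X → X ⊕ Y) ∘ g = Sum.inl ∘ g') : g = g' :=
  funext fun z => Sum.inl_injective (congrFun h z)

omit [TopologicalSpace X] [TopologicalSpace Y] [TopologicalSpace Z] in
theorem inr_cancel {g g' : Z → Y} (h : (Sum.inr : Y → X ⊕ Y) ∘ g = Sum.inr ∘ g') : g = g' :=
  funext fun z => Sum.inr_injective (congrFun h z)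

end basic

/-- The disjoint union of two oriented 3-manifolds. -/
def OM3.sum (M N : OM3) : OM3 where
  X := M.X ⊕ N.X
  chart := by
    rintro (x | y)
    · obtain ⟨V, hV, g, hg, z, hz⟩ := M.chart x
      exact ⟨V, hV, Sum.inl ∘ g, IsOpenEmbedding.inl.comp hg, z, by simp [hz]⟩
    · obtain ⟨V, hV, g, hg, z, hz⟩ := N.chart y
      exact ⟨V, hV, Sum.inr ∘ g, IsOpenEmbedding.inr.comp hg, z, by simp [hz]⟩
  pos := {φ | (∃ ψ ∈ M.pos, φ = Sum.inl ∘ ψ) ∨ (∃ ψ ∈ N.pos, φ = Sum.inr ∘ ψ)}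
  pos_emb := by
    rintro φ (⟨ψ, hψ, rfl⟩ | ⟨ψ, hψ, rfl⟩)
    · exact IsOpenEmbedding.inl.comp (M.pos_emb ψ hψ)
    · exact IsOpenEmbedding.inr.comp (N.pos_emb ψ hψ)
  pos_flip := by
    intro φ hφ
    rcases sum_cases φ hφ.continuous with ⟨ψ, rfl⟩ | ⟨ψ, rfl⟩
    · have hψ := M.pos_flip ψ (inl_comp_emb hφ)
      have h1 : ∀ χ : E3 → M.X, ((Sum.inl : M.X → M.X ⊕ N.X) ∘ χ) ∈
          {φ | (∃ ψ ∈ M.pos, φ = Sum.inl ∘ ψ) ∨ (∃ ψ ∈ N.pos, φ = Sum.inr ∘ ψ)} ↔ χ ∈ M.pos := by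
        intro χ
        constructor
        · rintro (⟨χ', h, h'⟩ | ⟨χ', h, h'⟩)
          · rwa [inl_cancel h']
          · exact absurd (congrFun h' 0) (by simp)
        · exact fun h => Or.inl ⟨χ, h, rfl⟩
      rw [Function.comp_assoc, h1, h1]
      exact hψ
    · have hψ := N.pos_flip ψ (inr_comp_emb hφ)
      have h1 : ∀ χ : E3 → N.X, ((Sum.inr : N.X → M.X ⊕ N.X) ∘ χ) ∈
          {φ | (∃ ψ ∈ M.pos, φ = Sum.inl ∘ ψ) ∨ (∃ ψ ∈ N.pos, φ = Sum.inr ∘ ψ)} ↔ χ ∈ N.pos := by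
        intro χ
        constructor
        · rintro (⟨χ', h, h'⟩ | ⟨χ', h, h'⟩)
          · exact absurd (congrFun h' 0) (by simp)
          · rwa [inr_cancel h']
        · exact fun h => Or.inr ⟨χ, h, rfl⟩
      rw [Function.comp_assoc, h1, h1]
      exact hψ
  pos_iso := by
    intro Φ hΦ hemb h0
    rcases sum_cases Φ hΦ with ⟨Ψ, rfl⟩ | ⟨Ψ, rfl⟩
    · left
      refine ⟨fun p => Ψ (1, p), M.pos_iso Ψ (IsEmbedding.inl.continuous_iff.2 hΦ)
        (fun t => inl_comp_emb (hemb t)) ?_, rfl⟩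
      rcases h0 with ⟨ψ, hψ, h⟩ | ⟨ψ, hψ, h⟩
      · have : (fun p => Ψ (0, p)) = ψ := inl_cancel h
        rwa [this]
      · exact absurd (congrFun h 0) (by simp)
    · right
      refine ⟨fun p => Ψ (1, p), N.pos_iso Ψ (IsEmbedding.inr.continuous_iff.2 hΦ)
        (fun t => inr_comp_emb (hemb t)) ?_, rfl⟩
      rcases h0 with ⟨ψ, hψ, h⟩ | ⟨ψ, hψ, h⟩
      · exact absurd (congrFun h 0) (by simp)
      · have : (fun p => Ψ (0, p)) = ψ := inr_cancel h
        rwa [this]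

/-! ### Framed links -/

section links

variable {X Y : Type} [TopologicalSpace X] [TopologicalSpace Y]

theorem isFramedLink_union {K : Set X} {L : Set Y} (hK : IsFramedLink K) (hL : IsFramedLink L) :
    IsFramedLink (Sum.inl '' K ∪ Sum.inr '' L : Set (X ⊕ Y)) := by
  obtain ⟨ι, _, Φ, h1, h2, rfl⟩ := hK
  obtain ⟨κ, _, Ψ, h3, h4, rfl⟩ := hL
  refine ⟨ι ⊕ κ, inferInstance, Sum.elim (fun i => Sum.inl ∘ Φ i) (fun i => Sum.inr ∘ Ψ i),
    ?_, ?_, ?_⟩
  · rintro (i | i)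
    · exact IsOpenEmbedding.inl.comp (h1 i)
    · exact IsOpenEmbedding.inr.comp (h3 i)
  · rintro (i | i) (j | j) hij
    · have := h2 i j (fun h => hij (by rw [h]))
      simp only [Sum.elim_inl, Set.range_comp]
      exact (Set.disjoint_image_iff Sum.inl_injective).2 this
    · simp only [Sum.elim_inl, Sum.elim_inr]
      rw [Set.disjoint_left]
      rintro _ ⟨a, rfl⟩ ⟨b, hb⟩
      simp at hb
    · simp only [Sum.elim_inl, Sum.elim_inr]
      rw [Set.disjoint_left]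
      rintro _ ⟨a, rfl⟩ ⟨b, hb⟩
      simp at hb
    · have := h4 i j (fun h => hij (by rw [h]))
      simp only [Sum.elim_inr, Set.range_comp]
      exact (Set.disjoint_image_iff Sum.inr_injective).2 this
  · rw [Set.iUnion_sum, Set.image_iUnion, Set.image_iUnion]
    simp only [Sum.elim_inl, Sum.elim_inr, Set.image_comp]

theorem isFramedLink_inl {K : Set (X ⊕ Y)} (hK : IsFramedLink K) :
    IsFramedLink (Sum.inl ⁻¹' K : Set X) := by
  obtain ⟨ι, _, Φ, h1, h2, rfl⟩ := hK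
  let κ := {i : ι // ∃ g : Circle × ℝ × ℝ → X, Φ i = Sum.inl ∘ g}
  choose Ψ hΨ using fun i : κ => i.2
  refine ⟨κ, inferInstance, Ψ, fun i => ?_, fun i j hij => ?_, ?_⟩
  · exact inl_comp_emb (Y := Y) (by rw [← hΨ]; exact h1 _)
  · have := h2 i.1 j.1 (fun h => hij (Subtype.ext h))
    rw [hΨ, hΨ, Set.range_comp, Set.range_comp] at this
    exact (Set.disjoint_image_iff Sum.inl_injective).1 this
  · ext x
    simp only [Set.mem_preimage, Set.mem_iUnion, Set.mem_image]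
    constructor
    · rintro ⟨i, q, hq, hx⟩
      rcases sum_cases (Φ i) (h1 i).continuous with h | ⟨g, hg⟩
      · refine ⟨⟨i, h⟩, q, hq, ?_⟩
        have := congrFun (hΨ ⟨i, h⟩) q
        rw [hx] at this
        exact (Sum.inl_injective this).symm
      · rw [hg] at hx
        simp at hx
    · rintro ⟨i, q, hq, hx⟩
      refine ⟨i.1, q, hq, ?_⟩
      rw [hΨ i, ← hx]
      rfl

theorem isFramedLink_inr {K : Set (X ⊕ Y)} (hK : IsFramedLink K) :
    IsFramedLink (Sum.inr ⁻¹' K : Set Y) := by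
  obtain ⟨ι, _, Φ, h1, h2, rfl⟩ := hK
  let κ := {i : ι // ∃ g : Circle × ℝ × ℝ → Y, Φ i = Sum.inr ∘ g}
  choose Ψ hΨ using fun i : κ => i.2
  refine ⟨κ, inferInstance, Ψ, fun i => ?_, fun i j hij => ?_, ?_⟩
  · exact inr_comp_emb (X := X) (by rw [← hΨ]; exact h1 _)
  · have := h2 i.1 j.1 (fun h => hij (Subtype.ext h))
    rw [hΨ, hΨ, Set.range_comp, Set.range_comp] at this
    exact (Set.disjoint_image_iff Sum.inr_injective).1 this
  · ext x
    simp only [Set.mem_preimage, Set.mem_iUnion, Set.mem_image]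
    constructor
    · rintro ⟨i, q, hq, hx⟩
      rcases sum_cases (Φ i) (h1 i).continuous with ⟨g, hg⟩ | h
      · rw [hg] at hx
        simp at hx
      · refine ⟨⟨i, h⟩, q, hq, ?_⟩
        have := congrFun (hΨ ⟨i, h⟩) q
        rw [hx] at this
        exact (Sum.inr_injective this).symm
    · rintro ⟨i, q, hq, hx⟩
      refine ⟨i.1, q, hq, ?_⟩
      rw [hΨ i, ← hx]
      rfl

/-! ### Isotopies -/

theorem isotopic_symm_snd {X : Type} [TopologicalSpace X] (H : (I × X) ≃ₜ (I × X))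
    (h1 : ∀ p, (H p).1 = p.1) (h2 : ∀ x, H (0, x) = (0, x)) :
    (∀ p, (H.symm p).1 = p.1) ∧ (∀ x, H.symm (0, x) = (0, x)) := by
  refine ⟨fun p => ?_, fun x => ?_⟩
  · have := h1 (H.symm p)
    rw [H.apply_symm_apply] at this
    exact this.symm
  · rw [H.symm_apply_eq, h2]

/-- A level preserving homeomorphism of `I × (X ⊕ Y)` starting at the identity restricts to
`I × X`. -/
theorem restrict_inl (H : (I × (X ⊕ Y)) ≃ₜ (I × (X ⊕ Y)))
    (h1 : ∀ p, (H p).1 = p.1) (h2 : ∀ x, H (0, x) = (0, x)) :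
    ∃ h : I × X → X, Continuous h ∧ ∀ t x, H (t, Sum.inl x) = (t, Sum.inl (h (t, x))) := by
  have h3 : ∀ p : I × X, ∃ x' : X, (H (p.1, Sum.inl p.2)).2 = Sum.inl x' := by
    rintro ⟨t, x⟩
    rcases sum_cases (fun s : I => (H (s, Sum.inl x)).2) (by fun_prop) with ⟨g, hg⟩ | ⟨g, hg⟩
    · exact ⟨g t, congrFun hg t⟩
    · have := congrFun hg 0
      simp [h2] at this
  choose h hh using h3
  refine ⟨h, ?_, fun t x => ?_⟩
  · rw [(IsEmbedding.inl (X := X) (Y := Y)).continuous_iff]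
    have : Sum.inl ∘ h = fun p : I × X => (H (p.1, Sum.inl p.2)).2 := by
      funext p; exact (hh p).symm
    rw [this]
    fun_prop
  · exact Prod.ext (h1 _) (hh (t, x))

theorem restrict_inr (H : (I × (X ⊕ Y)) ≃ₜ (I × (X ⊕ Y)))
    (h1 : ∀ p, (H p).1 = p.1) (h2 : ∀ x, H (0, x) = (0, x)) :
    ∃ h : I × Y → Y, Continuous h ∧ ∀ t x, H (t, Sum.inr x) = (t, Sum.inr (h (t, x))) := by
  have h3 : ∀ p : I × Y, ∃ x' : Y, (H (p.1, Sum.inr p.2)).2 = Sum.inr x' := by
    rintro ⟨t, x⟩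
    rcases sum_cases (fun s : I => (H (s, Sum.inr x)).2) (by fun_prop) with ⟨g, hg⟩ | ⟨g, hg⟩
    · have := congrFun hg 0
      simp [h2] at this
    · exact ⟨g t, congrFun hg t⟩
  choose h hh using h3
  refine ⟨h, ?_, fun t x => ?_⟩
  · rw [(IsEmbedding.inr (X := X) (Y := Y)).continuous_iff]
    have : Sum.inr ∘ h = fun p : I × Y => (H (p.1, Sum.inr p.2)).2 := by
      funext p; exact (hh p).symm
    rw [this]
    fun_prop
  · exact Prod.ext (h1 _) (hh (t, x))

theorem isotopic_inl {K K' : Set (X ⊕ Y)} (h : Isotopic K K') :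
    Isotopic (Sum.inl ⁻¹' K : Set X) (Sum.inl ⁻¹' K') := by
  obtain ⟨H, h1, h2, h3⟩ := h
  obtain ⟨h4, h5⟩ := isotopic_symm_snd H h1 h2
  obtain ⟨f, hf, hf'⟩ := restrict_inl H h1 h2
  obtain ⟨g, hg, hg'⟩ := restrict_inl H.symm h4 h5
  have hgf : ∀ t x, g (t, f (t, x)) = x := by
    intro t x
    have := hg' t (f (t, x))
    rw [← hf', H.symm_apply_apply] at this
    exact (Sum.inl_injective (Prod.ext_iff.1 this).2).symm
  have hfg : ∀ t x, f (t, g (t, x)) = x := by
    intro t x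
    have := hf' t (g (t, x))
    rw [← hg', H.apply_symm_apply] at this
    exact (Sum.inl_injective (Prod.ext_iff.1 this).2).symm
  refine ⟨⟨⟨fun p => (p.1, f p), fun p => (p.1, g p), fun p => ?_, fun p => ?_⟩,
    by dsimp only; fun_prop, by dsimp only; fun_prop⟩, fun p => rfl, fun x => ?_, ?_⟩
  · exact Prod.ext rfl (hgf p.1 p.2)
  · exact Prod.ext rfl (hfg p.1 p.2)
  · have := hf' 0 x
    rw [h2] at this
    exact Prod.ext rfl (Sum.inl_injective (Prod.ext_iff.1 this).2).symm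
  · rw [← h3]
    ext x
    simp only [Set.mem_image, Set.mem_preimage]
    constructor
    · rintro ⟨y, hy, rfl⟩
      exact ⟨Sum.inl y, hy, by rw [hf']; rfl⟩
    · rintro ⟨y, hy, hyx⟩
      refine ⟨g (1, x), ?_, hfg 1 x⟩
      have h6 := hg' 1 x
      have h7 : H (1, y) = (1, Sum.inl x) := Prod.ext (h1 _) hyx
      rw [← h7, H.symm_apply_apply] at h6
      have h8 : y = _ := (Prod.ext_iff.1 h6).2
      dsimp only at h8
      rw [← h8]
      exact hy

theorem isotopic_inr {K K' : Set (X ⊕ Y)} (h : Isotopic K K') :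
    Isotopic (Sum.inr ⁻¹' K : Set Y) (Sum.inr ⁻¹' K') := by
  obtain ⟨H, h1, h2, h3⟩ := h
  obtain ⟨h4, h5⟩ := isotopic_symm_snd H h1 h2
  obtain ⟨f, hf, hf'⟩ := restrict_inr H h1 h2
  obtain ⟨g, hg, hg'⟩ := restrict_inr H.symm h4 h5
  have hgf : ∀ t x, g (t, f (t, x)) = x := by
    intro t x
    have := hg' t (f (t, x))
    rw [← hf', H.symm_apply_apply] at this
    exact (Sum.inr_injective (Prod.ext_iff.1 this).2).symm
  have hfg : ∀ t x, f (t, g (t, x)) = x := by
    intro t x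
    have := hf' t (g (t, x))
    rw [← hg', H.apply_symm_apply] at this
    exact (Sum.inr_injective (Prod.ext_iff.1 this).2).symm
  refine ⟨⟨⟨fun p => (p.1, f p), fun p => (p.1, g p), fun p => ?_, fun p => ?_⟩,
    by dsimp only; fun_prop, by dsimp only; fun_prop⟩, fun p => rfl, fun x => ?_, ?_⟩
  · exact Prod.ext rfl (hgf p.1 p.2)
  · exact Prod.ext rfl (hfg p.1 p.2)
  · have := hf' 0 x
    rw [h2] at this
    exact Prod.ext rfl (Sum.inr_injective (Prod.ext_iff.1 this).2).symm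
  · rw [← h3]
    ext x
    simp only [Set.mem_image, Set.mem_preimage]
    constructor
    · rintro ⟨y, hy, rfl⟩
      exact ⟨Sum.inr y, hy, by rw [hf']; rfl⟩
    · rintro ⟨y, hy, hyx⟩
      refine ⟨g (1, x), ?_, hfg 1 x⟩
      have h6 := hg' 1 x
      have h7 : H (1, y) = (1, Sum.inr x) := Prod.ext (h1 _) hyx
      rw [← h7, H.symm_apply_apply] at h6
      have h8 : y = _ := (Prod.ext_iff.1 h6).2
      dsimp only at h8
      rw [← h8]
      exact hy

theorem isotopic_refl (K : Set X) : Isotopic K K :=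
  ⟨Homeomorph.refl _, fun _ => rfl, fun _ => rfl, by simp⟩

theorem isotopic_union {K K' : Set X} {L L' : Set Y} (h : Isotopic K K') (h' : Isotopic L L') :
    Isotopic (Sum.inl '' K ∪ Sum.inr '' L : Set (X ⊕ Y)) (Sum.inl '' K' ∪ Sum.inr '' L') := by
  obtain ⟨H, h1, h2, h3⟩ := h
  obtain ⟨G, g1, g2, g3⟩ := h'
  let e : (I × (X ⊕ Y)) ≃ₜ (I × X) ⊕ (I × Y) := Homeomorph.prodSumDistrib
  let T : (I × (X ⊕ Y)) ≃ₜ (I × (X ⊕ Y)) := e.trans ((H.sumCongr G).trans e.symm)
  have hl : ∀ t x, T (t, Sum.inl x) = (t, Sum.inl (H (t, x)).2) := by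
    intro t x
    have : (H (t, x)) = (t, (H (t, x)).2) := Prod.ext (h1 _) rfl
    change e.symm (Sum.inl (H (t, x))) = _
    rw [this]
    rfl
  have hr : ∀ t x, T (t, Sum.inr x) = (t, Sum.inr (G (t, x)).2) := by
    intro t x
    have : (G (t, x)) = (t, (G (t, x)).2) := Prod.ext (g1 _) rfl
    change e.symm (Sum.inr (G (t, x))) = _
    rw [this]
    rfl
  refine ⟨T, ?_, ?_, ?_⟩
  · rintro ⟨t, x | x⟩
    · rw [hl]
    · rw [hr]
  · rintro (x | x)
    · rw [hl, h2]
    · rw [hr, g2]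
  · rw [Set.image_union, ← Set.image_comp, ← Set.image_comp, ← h3, ← g3, ← Set.image_comp,
      ← Set.image_comp]
    refine congrArg₂ _ (Set.image_congr ?_) (Set.image_congr ?_)
    · intro x _
      simp [hl]
    · intro x _
      simp [hr]

end links

end Pool.Agent.Helper686.SK
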