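import Mathlib
import Pool.Agent.Helper686_SK.Sum

/-!
# The skein module of a disjoint union is the tensor product
-/

set_option autoImplicit false

namespace Pool.Agent.Helper686.SK

open Topology unitInterval TensorProduct

section desc

variable {M : OM3} {R : Type} [CommRing R] {a : Rˣ}

/-- The class of a framed link. -/
noncomputable def cls (M : OM3) (R : Type) [CommRing R] (a : Rˣ) (K : FLink M) : SkeinModule M R a :=
  Submodule.Quotient.mk (Finsupp.single K 1)

theorem cls_iso {K K' : FLink M} (h : Isotopic K.1 K'.1) : cls M R a K = cls M R a K' := by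
  rw [cls, cls, Submodule.Quotient.eq]
  exact Submodule.subset_span (Rel.iso K K' h)

theorem mk_single (K : FLink M) (r : R) :
    (Submodule.Quotient.mk (Finsupp.single K r) : SkeinModule M R a) = r • cls M R a K := by
  rw [cls, ← Submodule.Quotient.mk_smul, Finsupp.smul_single, smul_eq_mul, mul_one]

theorem cls_skein {K KA KB : FLink M} (h : SkeinTriple M K.1 KA.1 KB.1) :
    cls M R a K = (a : R) • cls M R a KA + ((a⁻¹ : Rˣ) : R) • cls M R a KB := by
  rw [← mk_single, ← mk_single, ← Submodule.Quotient.mk_add, cls, Submodule.Quotient.eq]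
  exact Submodule.subset_span (Rel.skein K KA KB h)

theorem cls_circle {K K' : FLink M} (h : AddsCircle M K.1 K'.1) :
    cls M R a K' = (-(a : R) ^ 2 - ((a⁻¹ : Rˣ) : R) ^ 2) • cls M R a K := by
  rw [← mk_single, cls, Submodule.Quotient.eq]
  exact Submodule.subset_span (Rel.circle K K' h)

variable {Q : Type} [AddCommGroup Q] [Module R Q]

/-- A function on framed links which respects the relations. -/
structure Respects (M : OM3) (R : Type) [CommRing R] (a : Rˣ) {Q : Type} [AddCommGroup Q]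
    [Module R Q] (F : FLink M → Q) : Prop where
  iso : ∀ K K' : FLink M, Isotopic K.1 K'.1 → F K = F K'
  skein : ∀ K KA KB : FLink M, SkeinTriple M K.1 KA.1 KB.1 →
    F K = (a : R) • F KA + ((a⁻¹ : Rˣ) : R) • F KB
  circle : ∀ K K' : FLink M, AddsCircle M K.1 K'.1 →
    F K' = (-(a : R) ^ 2 - ((a⁻¹ : Rˣ) : R) ^ 2) • F K

/-- The linear map on the skein module given by a function on framed links. -/
noncomputable def desc (F : FLink M → Q) (hF : Respects M R a F) : SkeinModule M R a →ₗ[R] Q :=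
  Submodule.liftQ _ (Finsupp.linearCombination R F) (by
    rw [Submodule.span_le]
    intro v hv
    rw [SetLike.mem_coe, LinearMap.mem_ker]
    rcases hv with ⟨K, K', h⟩ | ⟨K, KA, KB, h⟩ | ⟨K, K', h⟩
    · simp [hF.iso K K' h]
    · simp [hF.skein K KA KB h]
    · simp [hF.circle K K' h, sub_smul])

@[simp]
theorem desc_cls (F : FLink M → Q) (hF : Respects M R a F) (K : FLink M) :
    desc F hF (cls M R a K) = F K := by
  have : desc F hF (cls M R a K) = Finsupp.linearCombination R F (Finsupp.single K 1) := rfl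
  rw [this]
  simp

theorem span_cls : Submodule.span R (Set.range (cls M R a)) = ⊤ := by
  rw [eq_top_iff]
  intro v hv
  clear hv
  obtain ⟨v, rfl⟩ := Submodule.Quotient.mk_surjective _ v
  induction v using Finsupp.induction_linear with
  | zero => exact Submodule.zero_mem _
  | add f g hf hg => exact Submodule.add_mem _ hf hg
  | single K r =>
    rw [mk_single]
    exact Submodule.smul_mem _ _ (Submodule.subset_span ⟨K, rfl⟩)

omit [AddCommGroup Q] [Module R Q] in
theorem hom_ext [AddCommMonoid Q] [Module R Q] {f g : SkeinModule M R a →ₗ[R] Q} (h : ∀ K, f (cls M R a K) = g (cls M R a K)) :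
    f = g := by
  apply LinearMap.ext_on (span_cls (M := M) (R := R) (a := a))
  rintro _ ⟨K, rfl⟩
  exact h K

theorem respects_cls : Respects M R a (cls M R a) where
  iso _ _ h := cls_iso h
  skein _ _ _ h := cls_skein h
  circle _ _ h := cls_circle h

theorem Respects.comp {F : FLink M → Q} (hF : Respects M R a F) {Q' : Type} [AddCommGroup Q']
    [Module R Q'] (u : Q →ₗ[R] Q') : Respects M R a (fun K => u (F K)) where
  iso K K' h := by rw [hF.iso K K' h]
  skein K KA KB h := by rw [hF.skein K KA KB h, map_add, map_smul, map_smul]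
  circle K K' h := by rw [hF.circle K K' h, map_smul]

end desc

section union

variable (M N : OM3)

/-- The disjoint union of two framed links. -/
def FLink.union (K : FLink M) (L : FLink N) : FLink (M.sum N) :=
  ⟨(Sum.inl '' K.1 ∪ Sum.inr '' L.1 : Set (M.X ⊕ N.X)), isFramedLink_union K.2 L.2⟩

/-- The part in the first summand. -/
def FLink.left (K : FLink (M.sum N)) : FLink M :=
  ⟨(Sum.inl ⁻¹' (K.1 : Set (M.X ⊕ N.X)) : Set M.X), isFramedLink_inl K.2⟩

/-- The part in the second summand. -/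
def FLink.right (K : FLink (M.sum N)) : FLink N :=
  ⟨(Sum.inr ⁻¹' (K.1 : Set (M.X ⊕ N.X)) : Set N.X), isFramedLink_inr K.2⟩

variable {M N}

theorem left_union (K : FLink M) (L : FLink N) : FLink.left M N (FLink.union M N K L) = K := by
  apply Subtype.ext
  change (Sum.inl ⁻¹' (Sum.inl '' K.1 ∪ Sum.inr '' L.1 : Set (M.X ⊕ N.X)) : Set M.X) = K.1
  ext x
  simp

theorem right_union (K : FLink M) (L : FLink N) : FLink.right M N (FLink.union M N K L) = L := by
  apply Subtype.ext
  change (Sum.inr ⁻¹' (Sum.inl '' K.1 ∪ Sum.inr '' L.1 : Set (M.X ⊕ N.X)) : Set N.X) = L.1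
  ext x
  simp

theorem union_left_right (K : FLink (M.sum N)) :
    FLink.union M N (FLink.left M N K) (FLink.right M N K) = K := by
  apply Subtype.ext
  change (Sum.inl '' (Sum.inl ⁻¹' (K.1 : Set (M.X ⊕ N.X))) ∪
    Sum.inr '' (Sum.inr ⁻¹' (K.1 : Set (M.X ⊕ N.X))) : Set (M.X ⊕ N.X)) = K.1
  ext x
  constructor
  · rintro (⟨y, hy, rfl⟩ | ⟨y, hy, rfl⟩)
    · exact hy
    · exact hy
  · intro h
    rcases x with x | x
    · exact Or.inl ⟨x, h, rfl⟩
    · exact Or.inr ⟨x, h, rfl⟩

/-! The relations. -/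

theorem set_aux1 {X Y : Type} (K S : Set X) (L : Set Y) :
    (Sum.inl '' (K ∪ S) ∪ Sum.inr '' L : Set (X ⊕ Y)) =
      (Sum.inl '' K ∪ Sum.inr '' L) ∪ Sum.inl '' S := by
  rw [Set.image_union, Set.union_assoc, Set.union_assoc, Set.union_comm (Sum.inl '' S)]

theorem set_aux2 {X Y : Type} (K S : Set Y) (L : Set X) :
    (Sum.inl '' L ∪ Sum.inr '' (K ∪ S) : Set (X ⊕ Y)) =
      (Sum.inl '' L ∪ Sum.inr '' K) ∪ Sum.inr '' S := by
  rw [Set.image_union, Set.union_assoc]

theorem set_aux3 {X Y Z : Type} (K : Set (X ⊕ Y)) (ψ : Z → X) (B : Set Z) :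
    (Sum.inl ⁻¹' (K ∪ (Sum.inl ∘ ψ) '' B) : Set X) = Sum.inl ⁻¹' K ∪ ψ '' B ∧
      (Sum.inr ⁻¹' (K ∪ (Sum.inl ∘ ψ) '' B) : Set Y) = Sum.inr ⁻¹' K := by
  constructor
  · ext x; simp
  · ext x; simp

theorem set_aux4 {X Y Z : Type} (K : Set (X ⊕ Y)) (ψ : Z → Y) (B : Set Z) :
    (Sum.inr ⁻¹' (K ∪ (Sum.inr ∘ ψ) '' B) : Set Y) = Sum.inr ⁻¹' K ∪ ψ '' B ∧
      (Sum.inl ⁻¹' (K ∪ (Sum.inr ∘ ψ) '' B) : Set X) = Sum.inl ⁻¹' K := by
  constructor
  · ext x; simp
  · ext x; simp

theorem skein_union_left {K KA KB : Set M.X} (h : SkeinTriple M K KA KB) (L : Set N.X) :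
    SkeinTriple (M.sum N) (Sum.inl '' K ∪ Sum.inr '' L) (Sum.inl '' KA ∪ Sum.inr '' L)
      (Sum.inl '' KB ∪ Sum.inr '' L) := by
  obtain ⟨φ, hφ, h1, h2, h3, h4, h5⟩ := h
  have key : ∀ (S : Set M.X) (P : Set E3), Inside φ S P →
      Inside (Sum.inl ∘ φ) (Sum.inl '' S ∪ Sum.inr '' L : Set (M.X ⊕ N.X)) P := by
    intro S P hS p hp
    rw [← hS p hp]
    simp
  have key2 : ∀ S T : Set M.X, S \ φ '' ball = T \ φ '' ball →
      (Sum.inl '' S ∪ Sum.inr '' L : Set (M.X ⊕ N.X)) \ (Sum.inl ∘ φ) '' ball =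
      (Sum.inl '' T ∪ Sum.inr '' L : Set (M.X ⊕ N.X)) \ (Sum.inl ∘ φ) '' ball := by
    intro S T hST
    ext x
    rcases x with x | x
    · have := Set.ext_iff.1 hST x
      simp only [Set.mem_sdiff, Set.mem_image] at this
      simpa using this
    · simp
  exact ⟨Sum.inl ∘ φ, Or.inl ⟨φ, hφ, rfl⟩, key _ _ h1, key _ _ h2, key _ _ h3,
    key2 _ _ h4, key2 _ _ h5⟩

theorem skein_union_right {K KA KB : Set N.X} (h : SkeinTriple N K KA KB) (L : Set M.X) :
    SkeinTriple (M.sum N) (Sum.inl '' L ∪ Sum.inr '' K) (Sum.inl '' L ∪ Sum.inr '' KA)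
      (Sum.inl '' L ∪ Sum.inr '' KB) := by
  obtain ⟨φ, hφ, h1, h2, h3, h4, h5⟩ := h
  have key : ∀ (S : Set N.X) (P : Set E3), Inside φ S P →
      Inside (Sum.inr ∘ φ) (Sum.inl '' L ∪ Sum.inr '' S : Set (M.X ⊕ N.X)) P := by
    intro S P hS p hp
    rw [← hS p hp]
    simp
  have key2 : ∀ S T : Set N.X, S \ φ '' ball = T \ φ '' ball →
      (Sum.inl '' L ∪ Sum.inr '' S : Set (M.X ⊕ N.X)) \ (Sum.inr ∘ φ) '' ball =
      (Sum.inl '' L ∪ Sum.inr '' T : Set (M.X ⊕ N.X)) \ (Sum.inr ∘ φ) '' ball := by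
    intro S T hST
    ext x
    rcases x with x | x
    · simp
    · have := Set.ext_iff.1 hST x
      simp only [Set.mem_sdiff, Set.mem_image] at this
      simpa using this
  exact ⟨Sum.inr ∘ φ, Or.inr ⟨φ, hφ, rfl⟩, key _ _ h1, key _ _ h2, key _ _ h3,
    key2 _ _ h4, key2 _ _ h5⟩

theorem circle_union_left {K K' : Set M.X} (h : AddsCircle M K K') (L : Set N.X) :
    AddsCircle (M.sum N) (Sum.inl '' K ∪ Sum.inr '' L) (Sum.inl '' K' ∪ Sum.inr '' L) := by
  obtain ⟨φ, hφ, h1, rfl⟩ := h
  refine ⟨Sum.inl ∘ φ, Or.inl ⟨φ, hφ, rfl⟩, ?_, ?_⟩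
  · rw [Set.disjoint_left] at h1 ⊢
    rintro _ ⟨p, hp, rfl⟩ h2
    apply h1 ⟨p, hp, rfl⟩
    rcases h2 with ⟨y, hy, hy'⟩ | ⟨y, hy, hy'⟩
    · rwa [← Sum.inl_injective hy']
    · cases hy'
  · have := set_aux1 K (φ '' annulus) L
    rw [← Set.image_comp] at this
    exact this

theorem circle_union_right {K K' : Set N.X} (h : AddsCircle N K K') (L : Set M.X) :
    AddsCircle (M.sum N) (Sum.inl '' L ∪ Sum.inr '' K) (Sum.inl '' L ∪ Sum.inr '' K') := by
  obtain ⟨φ, hφ, h1, rfl⟩ := h
  refine ⟨Sum.inr ∘ φ, Or.inr ⟨φ, hφ, rfl⟩, ?_, ?_⟩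
  · rw [Set.disjoint_left] at h1 ⊢
    rintro _ ⟨p, hp, rfl⟩ h2
    apply h1 ⟨p, hp, rfl⟩
    rcases h2 with ⟨y, hy, hy'⟩ | ⟨y, hy, hy'⟩
    · cases hy'
    · rwa [← Sum.inr_injective hy']
  · have := set_aux2 K (φ '' annulus) L
    rw [← Set.image_comp] at this
    exact this

/-- A skein triple in the disjoint union lies in one of the summands. -/
theorem skein_split {K KA KB : Set (M.sum N).X} (h : SkeinTriple (M.sum N) K KA KB) :
    (SkeinTriple M (Sum.inl ⁻¹' K) (Sum.inl ⁻¹' KA) (Sum.inl ⁻¹' KB) ∧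
      (Sum.inr ⁻¹' K : Set N.X) = Sum.inr ⁻¹' KA ∧ (Sum.inr ⁻¹' K : Set N.X) = Sum.inr ⁻¹' KB) ∨
    (SkeinTriple N (Sum.inr ⁻¹' K) (Sum.inr ⁻¹' KA) (Sum.inr ⁻¹' KB) ∧
      (Sum.inl ⁻¹' K : Set M.X) = Sum.inl ⁻¹' KA ∧
      (Sum.inl ⁻¹' K : Set M.X) = Sum.inl ⁻¹' KB) := by
  obtain ⟨φ, hφ, h1, h2, h3, h4, h5⟩ := h
  rcases hφ with ⟨ψ, hψ, rfl⟩ | ⟨ψ, hψ, rfl⟩
  · left
    have key : ∀ S T : Set (M.X ⊕ N.X), S \ (Sum.inl ∘ ψ) '' ball = T \ (Sum.inl ∘ ψ) '' ball →
        (Sum.inl ⁻¹' S \ ψ '' ball : Set M.X) = Sum.inl ⁻¹' T \ ψ '' ball ∧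
        (Sum.inr ⁻¹' S : Set N.X) = Sum.inr ⁻¹' T := by
      intro S T hST
      constructor
      · ext x
        have := Set.ext_iff.1 hST (Sum.inl x)
        simpa using this
      · ext x
        have := Set.ext_iff.1 hST (Sum.inr x)
        simpa using this
    exact ⟨⟨ψ, hψ, h1, h2, h3, (key _ _ h4).1, (key _ _ h5).1⟩, (key _ _ h4).2, (key _ _ h5).2⟩
  · right
    have key : ∀ S T : Set (M.X ⊕ N.X), S \ (Sum.inr ∘ ψ) '' ball = T \ (Sum.inr ∘ ψ) '' ball →
        (Sum.inr ⁻¹' S \ ψ '' ball : Set N.X) = Sum.inr ⁻¹' T \ ψ '' ball ∧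
        (Sum.inl ⁻¹' S : Set M.X) = Sum.inl ⁻¹' T := by
      intro S T hST
      constructor
      · ext x
        have := Set.ext_iff.1 hST (Sum.inr x)
        simpa using this
      · ext x
        have := Set.ext_iff.1 hST (Sum.inl x)
        simpa using this
    exact ⟨⟨ψ, hψ, h1, h2, h3, (key _ _ h4).1, (key _ _ h5).1⟩, (key _ _ h4).2, (key _ _ h5).2⟩

theorem circle_split {K K' : Set (M.sum N).X} (h : AddsCircle (M.sum N) K K') :
    (AddsCircle M (Sum.inl ⁻¹' K) (Sum.inl ⁻¹' K') ∧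
      (Sum.inr ⁻¹' K : Set N.X) = Sum.inr ⁻¹' K') ∨
    (AddsCircle N (Sum.inr ⁻¹' K) (Sum.inr ⁻¹' K') ∧
      (Sum.inl ⁻¹' K : Set M.X) = Sum.inl ⁻¹' K') := by
  obtain ⟨φ, hφ, h1, rfl⟩ := h
  rcases hφ with ⟨ψ, hψ, rfl⟩ | ⟨ψ, hψ, rfl⟩
  · left
    refine ⟨⟨ψ, hψ, ?_, (set_aux3 _ _ _).1⟩, (set_aux3 _ _ _).2.symm⟩
    rw [Set.disjoint_left] at h1 ⊢
    rintro _ ⟨p, hp, rfl⟩ h2
    exact h1 ⟨p, hp, rfl⟩ h2
  · right
    refine ⟨⟨ψ, hψ, ?_, (set_aux4 _ _ _).1⟩, (set_aux4 _ _ _).2.symm⟩
    rw [Set.disjoint_left] at h1 ⊢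
    rintro _ ⟨p, hp, rfl⟩ h2
    exact h1 ⟨p, hp, rfl⟩ h2

variable (M N) (R : Type) [CommRing R] (a : Rˣ)

/-- The map from the skein module of the disjoint union to the tensor product. -/
noncomputable def toTensor :
    SkeinModule (M.sum N) R a →ₗ[R] SkeinModule M R a ⊗[R] SkeinModule N R a :=
  desc (fun K => cls M R a (FLink.left M N K) ⊗ₜ cls N R a (FLink.right M N K))
    { iso := fun K K' h => by
        rw [cls_iso (K' := FLink.left M N K') (isotopic_inl h),
          cls_iso (K' := FLink.right M N K') (isotopic_inr h)]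
      skein := fun K KA KB h => by
        rcases skein_split h with ⟨h1, h2, h3⟩ | ⟨h1, h2, h3⟩
        · rw [cls_skein (KA := FLink.left M N KA) (KB := FLink.left M N KB) h1,
            TensorProduct.add_tmul, ← TensorProduct.smul_tmul', ← TensorProduct.smul_tmul']
          have e1 : FLink.right M N K = FLink.right M N KA := Subtype.ext h2
          have e2 : FLink.right M N K = FLink.right M N KB := Subtype.ext h3
          rw [← e1, ← e2]
        · rw [cls_skein (KA := FLink.right M N KA) (KB := FLink.right M N KB) h1,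
            TensorProduct.tmul_add, TensorProduct.tmul_smul, TensorProduct.tmul_smul]
          have e1 : FLink.left M N K = FLink.left M N KA := Subtype.ext h2
          have e2 : FLink.left M N K = FLink.left M N KB := Subtype.ext h3
          rw [← e1, ← e2]
      circle := fun K K' h => by
        rcases circle_split h with ⟨h1, h2⟩ | ⟨h1, h2⟩
        · rw [cls_circle (K := FLink.left M N K) (K' := FLink.left M N K') h1, ← TensorProduct.smul_tmul']
          have e1 : FLink.right M N K = FLink.right M N K' := Subtype.ext h2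
          rw [← e1]
        · rw [cls_circle (K := FLink.right M N K) (K' := FLink.right M N K') h1, TensorProduct.tmul_smul]
          have e1 : FLink.left M N K = FLink.left M N K' := Subtype.ext h2
          rw [← e1] }

/-- The map from the tensor product to the skein module of the disjoint union. -/
noncomputable def ofTensor :
    SkeinModule M R a ⊗[R] SkeinModule N R a →ₗ[R] SkeinModule (M.sum N) R a :=
  TensorProduct.lift (desc (fun K => desc (fun L => cls (M.sum N) R a (FLink.union M N K L))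
    { iso := fun L L' h => cls_iso (isotopic_union (isotopic_refl _) h)
      skein := fun L LA LB h => cls_skein (skein_union_right h K.1)
      circle := fun L L' h => cls_circle (circle_union_right h K.1) })
    { iso := fun K K' h => by
        apply hom_ext
        intro L
        rw [desc_cls, desc_cls]
        exact cls_iso (isotopic_union h (isotopic_refl _))
      skein := fun K KA KB h => by
        apply hom_ext
        intro L
        rw [LinearMap.add_apply, LinearMap.smul_apply, LinearMap.smul_apply, desc_cls, desc_cls,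
          desc_cls]
        exact cls_skein (skein_union_left h L.1)
      circle := fun K K' h => by
        apply hom_ext
        intro L
        rw [LinearMap.smul_apply, desc_cls, desc_cls]
        exact cls_circle (circle_union_left h L.1) })

theorem toTensor_ofTensor (z : SkeinModule M R a ⊗[R] SkeinModule N R a) :
    toTensor M N R a (ofTensor M N R a z) = z := by
  have h : (TensorProduct.mk R (SkeinModule M R a) (SkeinModule N R a)).compr₂
      ((toTensor M N R a) ∘ₗ (ofTensor M N R a)) =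
      TensorProduct.mk R (SkeinModule M R a) (SkeinModule N R a) := by
    apply hom_ext
    intro K
    apply hom_ext
    intro L
    change toTensor M N R a (ofTensor M N R a (cls M R a K ⊗ₜ cls N R a L)) = _
    rw [ofTensor, TensorProduct.lift.tmul, desc_cls, desc_cls, toTensor, desc_cls, left_union,
      right_union]
    rfl
  induction z using TensorProduct.induction_on with
  | zero => rw [map_zero, map_zero]
  | tmul x y => exact LinearMap.congr_fun₂ h x y
  | add u v hu hv => rw [map_add, map_add, hu, hv]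

/-- If the skein module of the disjoint union is torsion free, so is the tensor product. -/
theorem tensor_torsionFree
    (h : TorsionFree R (SkeinModule (M.sum N) R a)) :
    TorsionFree R (SkeinModule M R a ⊗[R] SkeinModule N R a) := by
  intro r x hr hx
  have h1 := h r (ofTensor M N R a x) hr (by rw [← map_smul, hx, map_zero])
  rw [← toTensor_ofTensor M N R a x, h1, map_zero]

end union

end Pool.Agent.Helper686.SK
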