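import Mathlib
import Pool.Agent.Helper686_SK.Alg3
import Pool.Agent.Helper686_SK.Tensor
import Pool.Agent.Helper686_SK.Clopen

/-!
# Flatness of the skein module
-/

set_option autoImplicit false

namespace Pool.Agent.Helper686.SK

open Topology unitInterval TensorProduct

/-- The class is closed under disjoint unions. -/
theorem inClass_sum {M N : OM3} (hM : InClass M) (hN : InClass N) : InClass (M.sum N) := by
  intro F hF hinc
  have hcases : (∃ F₁ : Set M.X, F = (Sum.inl '' F₁ : Set (M.X ⊕ N.X))) ∨
      (∃ F₂ : Set N.X, F = (Sum.inr '' F₂ : Set (M.X ⊕ N.X))) := by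
    have hconn : IsConnected F := hF.2.1
    obtain ⟨z, hz⟩ := hconn.1
    rcases hzz : (z : M.X ⊕ N.X) with x | x
    · left
      have h1 := subset_range_of_preconnected (j := (Sum.inl : M.X → M.X ⊕ N.X))
        IsOpenEmbedding.inl isClosed_range_inl hconn.2 hz (by rw [hzz]; exact ⟨x, rfl⟩)
      exact ⟨Sum.inl ⁻¹' F, (Set.image_preimage_eq_of_subset h1).symm⟩
    · right
      have h1 := subset_range_of_preconnected (j := (Sum.inr : N.X → M.X ⊕ N.X))
        IsOpenEmbedding.inr isClosed_range_inr hconn.2 hz (by rw [hzz]; exact ⟨x, rfl⟩)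
      exact ⟨Sum.inr ⁻¹' F, (Set.image_preimage_eq_of_subset h1).symm⟩
  rcases hcases with ⟨F₁, rfl⟩ | ⟨F₂, rfl⟩
  · have e : IsOpenEmbedding (Sum.inl : M.X → M.X ⊕ N.X) := IsOpenEmbedding.inl
    have c : IsClosed (Set.range (Sum.inl : M.X → M.X ⊕ N.X)) := isClosed_range_inl
    exact boundaryParallel_image e c
      (hM F₁ (isClosedSurface_of_image e c hF) (incompressible_of_image e hinc))
  · have e : IsOpenEmbedding (Sum.inr : N.X → M.X ⊕ N.X) := IsOpenEmbedding.inr
    have c : IsClosed (Set.range (Sum.inr : N.X → M.X ⊕ N.X)) := isClosed_range_inr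
    exact boundaryParallel_image e c
      (hN F₂ (isClosedSurface_of_image e c hF) (incompressible_of_image e hinc))

/-- If `S(M)` and `S(M ⊔ M)` are torsion free then `S(M)` is flat. -/
theorem flat_of_torsionFree (M : OM3) (h1 : TorsionFree (LaurentPolynomial ℤ) (KBSM M))
    (h2 : TorsionFree (LaurentPolynomial ℤ) (KBSM (M.sum M))) :
    Module.Flat (LaurentPolynomial ℤ) (KBSM M) :=
  flat_laurent_of_square (KBSM M) h1 (tensor_torsionFree M M _ _ h2)

section baseChange

variable (M : OM3) (R : Type) [CommRing R] (a : Rˣ)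

/-- The ring homomorphism `ℤ[A, A⁻¹] → R` with `A ↦ a`. -/
noncomputable def ev : LaurentPolynomial ℤ →+* R := LaurentPolynomial.eval₂ (Int.castRingHom R) a

theorem ev_unitA : ev R a (unitA : LaurentPolynomial ℤ) = a := by
  change LaurentPolynomial.eval₂ (Int.castRingHom R) a (LaurentPolynomial.T 1) = a
  simp

theorem ev_unitA_inv :
    ev R a ((unitA⁻¹ : (LaurentPolynomial ℤ)ˣ) : LaurentPolynomial ℤ) = ((a⁻¹ : Rˣ) : R) := by
  change LaurentPolynomial.eval₂ (Int.castRingHom R) a (LaurentPolynomial.T (-1)) = _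
  simp

/-- The skein module over `(R, a)` is flat if the one over `ℤ[A, A⁻¹]` is flat. -/
theorem flat_baseChange (h : Module.Flat (LaurentPolynomial ℤ) (KBSM M)) :
    Module.Flat R (SkeinModule M R a) := by
  let _ : Algebra (LaurentPolynomial ℤ) R := (ev R a).toAlgebra
  have halg : ∀ r : LaurentPolynomial ℤ, algebraMap (LaurentPolynomial ℤ) R r = ev R a r :=
    fun r => rfl
  -- the map to the base change
  let F : FLink M → R ⊗[LaurentPolynomial ℤ] (KBSM M) := fun K => 1 ⊗ₜ cls M _ unitA K
  have hsm : ∀ (r : LaurentPolynomial ℤ) (x : KBSM M),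
      (1 : R) ⊗ₜ[LaurentPolynomial ℤ] (r • x) = (ev R a r) • ((1 : R) ⊗ₜ x) := by
    intro r x
    rw [TensorProduct.smul_tmul', smul_eq_mul, mul_one, ← TensorProduct.smul_tmul,
      Algebra.smul_def, mul_one, halg]
  have hF : Respects M R a F :=
    { iso := fun K K' h => by simp only [F, cls_iso h]
      skein := fun K KA KB h => by
        simp only [F]
        rw [cls_skein h, TensorProduct.tmul_add, hsm, hsm, ev_unitA, ev_unitA_inv]
      circle := fun K K' h => by
        simp only [F]
        rw [cls_circle h, hsm, map_sub, map_neg, map_pow, map_pow, ev_unitA, ev_unitA_inv] }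
  -- the map from the base change
  have hG : Respects M (LaurentPolynomial ℤ) unitA (fun K => cls M R a K) :=
    { iso := fun K K' h => cls_iso h
      skein := fun K KA KB h => by
        rw [cls_skein h, ← algebraMap_smul R (unitA : LaurentPolynomial ℤ),
          ← algebraMap_smul R ((unitA⁻¹ : (LaurentPolynomial ℤ)ˣ) : LaurentPolynomial ℤ),
          halg, halg, ev_unitA, ev_unitA_inv]
      circle := fun K K' h => by
        rw [cls_circle h, ← algebraMap_smul R (-(unitA : LaurentPolynomial ℤ) ^ 2 -
          ((unitA⁻¹ : (LaurentPolynomial ℤ)ˣ) : LaurentPolynomial ℤ) ^ 2), halg,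
          map_sub, map_neg, map_pow, map_pow, ev_unitA, ev_unitA_inv] }
  let g : KBSM M →ₗ[LaurentPolynomial ℤ] SkeinModule M R a := desc _ hG
  let G : R ⊗[LaurentPolynomial ℤ] (KBSM M) →ₗ[R] SkeinModule M R a := g.liftBaseChange R
  have hGF : G ∘ₗ desc F hF = LinearMap.id := by
    apply hom_ext
    intro K
    rw [LinearMap.comp_apply, desc_cls, LinearMap.id_apply]
    change g.liftBaseChange R ((1 : R) ⊗ₜ cls M _ unitA K) = _
    rw [LinearMap.liftBaseChange_tmul, one_smul]
    exact desc_cls _ hG K
  exact Module.Flat.of_retract (desc F hF) G hGF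

end baseChange

/-- The equivalence. -/
theorem equivalence :
    (∀ M : OM3, InClass M → TorsionFree (LaurentPolynomial ℤ) (KBSM M)) ↔
    (∀ M : OM3, InClass M → ∀ (R : Type) [CommRing R] (a : Rˣ),
      Module.Flat R (SkeinModule M R a)) := by
  constructor
  · intro h M hM R _ a
    exact flat_baseChange M R a (flat_of_torsionFree M (h M hM) (h _ (inClass_sum hM hM)))
  · intro h M hM r x hr hx
    have h1 : Module.Flat (LaurentPolynomial ℤ) (KBSM M) := h M hM _ unitA
    have h2 : Module.IsTorsionFree (LaurentPolynomial ℤ) (KBSM M) := inferInstance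
    exact (smul_eq_zero.1 hx).resolve_left hr

end Pool.Agent.Helper686.SK
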